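import Mathlib
import Pool.Agent.Y359.PE.Step

/-!
# The entropy of a sum of two independent variables one of which is mostly zero
-/

set_option autoImplicit false

namespace Q137.Shifts

open Finset Pool.Agent.Y359.PE
open scoped Classical

variable {α β M : Type*} [AddCommGroup M]

/-- the numerical inequality -/
lemma num_exp {θ : ℝ} (hθ : 0 < θ) (hθ1 : θ ≤ 1 / 9) :
    θ * (Real.log (1 / θ) + 1) + θ * Real.sqrt θ ≤ 4 / Real.log (1 / θ) * Real.sqrt θ := by
  set s := Real.sqrt θ with hs
  have hs0 : 0 < s := Real.sqrt_pos.2 hθ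
  have hss : s * s = θ := Real.mul_self_sqrt hθ.le
  have hs3 : s ≤ 1 / 3 := by
    have : s ^ 2 ≤ (1 / 3) ^ 2 := by rw [sq, hss]; linarith
    exact le_of_pow_le_pow_left₀ (by norm_num) (by norm_num) this
  set m := Real.log (1 / s) with hm
  have hl : Real.log (1 / θ) = 2 * m := by
    rw [hm, ← hss, one_div, one_div, Real.log_inv, Real.log_inv, Real.log_mul hs0.ne' hs0.ne']
    ring
  have hexp : Real.exp m = 1 / s := by
    rw [hm, Real.exp_log (by positivity)]
  have hm0 : 0 < m := by
    rw [hm]
    refine Real.log_pos ?_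
    rw [lt_div_iff₀ hs0]
    linarith
  have h4 := Real.sum_le_exp_of_nonneg hm0.le 4
  have h5 : 1 + m + m ^ 2 / 2 + m ^ 3 / 6 ≤ 1 / s := by
    rw [← hexp]
    refine le_trans (le_of_eq ?_) h4
    simp [Finset.sum_range_succ, Nat.factorial]
  have h6 : s * (m ^ 2 + 2 * m / 3) ≤ 1 := by
    have e1 : m ^ 2 + 2 * m / 3 ≤ 1 + m + m ^ 2 / 2 + m ^ 3 / 6 := by
      nlinarith [sq_nonneg (m - 3 / 2), mul_nonneg hm0.le (sq_nonneg (m - 3 / 2))]
    have e2 : m ^ 2 + 2 * m / 3 ≤ 1 / s := e1.trans h5
    rw [le_div_iff₀ hs0] at e2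
    linarith
  rw [hl]
  have h7 : θ * (2 * m + 1) + θ * s ≤ 4 / (2 * m) * s := by
    rw [div_mul_eq_mul_div, le_div_iff₀ (by positivity), ← hss]
    have e3 : (s * s * (2 * m + 1) + s * s * s) * (2 * m) =
        s * (s * (4 * m ^ 2 + 2 * m + 2 * m * s)) := by ring
    rw [e3]
    have e4 : s * (4 * m ^ 2 + 2 * m + 2 * m * s) ≤ 4 := by
      have e5 : 2 * m * s ≤ 2 * m / 3 := by nlinarith
      have e6 : s * (4 * m ^ 2 + 2 * m + 2 * m * s) ≤ s * (4 * (m ^ 2 + 2 * m / 3)) := by
        apply mul_le_mul_of_nonneg_left _ hs0.le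
        linarith
      nlinarith
    nlinarith
  exact h7

/-- the entropy of a rare event -/
lemma h_rare (G : Finset β) (hG : G.Nonempty) (b : β → M) {θ : ℝ} (hθ : 0 < θ) (hθ1 : θ ≤ 1 / 9)
    (hb : (nz G b : ℝ) ≤ θ * G.card) :
    h G (fun g => decide (b g ≠ 0)) ≤ θ * (Real.log (1 / θ) + 1) := by
  have hN : (0 : ℝ) < G.card := by exact_mod_cast card_pos.2 hG
  have hl : 0 < Real.log (1 / θ) := by
    refine Real.log_pos ?_
    rw [lt_div_iff₀ hθ]
    linarith
  set P : ℝ := (nz G b : ℝ) with hP
  have hP0 : 0 ≤ P := by positivity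
  have hPN : P ≤ G.card / 9 := by nlinarith
  -- class sizes
  have hfc1 : ∀ g ∈ G, b g ≠ 0 → (fc G (fun g => decide (b g ≠ 0)) g : ℝ) = P := by
    intro g hg hbg
    rw [hP]
    congr 1
    unfold fc nz
    congr 1
    ext y
    rw [mem_cl, mem_filter]
    simp [hbg]
  have hfc0 : ∀ g ∈ G, b g = 0 → (fc G (fun g => decide (b g ≠ 0)) g : ℝ) = G.card - P := by
    intro g hg hbg
    have h1 : (G.filter fun g => b g ≠ 0).card + (G.filter fun g => ¬ b g ≠ 0).card = G.card :=
      card_filter_add_card_filter_not _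
    have h2 : fc G (fun g => decide (b g ≠ 0)) g = (G.filter fun g => ¬ b g ≠ 0).card := by
      unfold fc
      congr 1
      ext y
      rw [mem_cl, mem_filter]
      simp [hbg]
    rw [h2, hP]
    unfold nz
    rw [← h1]
    push_cast
    ring
  unfold h
  rw [div_le_iff₀ hN]
  rw [← sum_filter_add_sum_filter_not G (fun g => b g ≠ 0)]
  have s1 : ∑ x ∈ G.filter (fun g => b g ≠ 0), (Real.log G.card -
      Real.log (fc G (fun g => decide (b g ≠ 0)) x)) = P * (Real.log G.card - Real.log P) := by
    rw [sum_congr rfl (g := fun _ => Real.log G.card - Real.log P), sum_const, nsmul_eq_mul]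
    · rfl
    · intro x hx
      rw [mem_filter] at hx
      rw [hfc1 x hx.1 hx.2]
  have s0 : ∑ x ∈ G.filter (fun g => ¬ b g ≠ 0), (Real.log G.card -
      Real.log (fc G (fun g => decide (b g ≠ 0)) x)) =
      (G.card - P) * (Real.log G.card - Real.log (G.card - P)) := by
    rw [sum_congr rfl (g := fun _ => Real.log G.card - Real.log (G.card - P)), sum_const,
      nsmul_eq_mul]
    · congr 1
      have h1 : (G.filter fun g => b g ≠ 0).card + (G.filter fun g => ¬ b g ≠ 0).card = G.card :=
        card_filter_add_card_filter_not _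
      rw [hP]
      unfold nz
      rw [← h1]
      push_cast
      ring
    · intro x hx
      rw [mem_filter, not_not] at hx
      rw [hfc0 x hx.1 hx.2]
  rw [s1, s0]
  have t0 : (G.card - P) * (Real.log G.card - Real.log (G.card - P)) ≤ P := by
    have e1 : (0 : ℝ) < G.card - P := by linarith
    have e2 : Real.log (G.card / (G.card - P)) ≤ G.card / (G.card - P) - 1 :=
      Real.log_le_sub_one_of_pos (by positivity)
    rw [Real.log_div hN.ne' e1.ne'] at e2
    calc (G.card - P) * (Real.log G.card - Real.log (G.card - P))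
        ≤ (G.card - P) * (G.card / (G.card - P) - 1) := mul_le_mul_of_nonneg_left e2 e1.le
      _ = P := by field_simp; ring
  have t1 : P * (Real.log G.card - Real.log P) ≤ θ * G.card * Real.log (1 / θ) +
      (θ * G.card - P) := by
    rcases hP0.eq_or_lt with h0 | h0
    · rw [← h0]
      have : 0 ≤ θ * G.card * Real.log (1 / θ) := by positivity
      have : 0 ≤ θ * G.card := by positivity
      linarith
    · have e2 : Real.log (θ * G.card / P) ≤ θ * G.card / P - 1 :=
        Real.log_le_sub_one_of_pos (by positivity)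
      rw [Real.log_div (by positivity) h0.ne', Real.log_mul hθ.ne' hN.ne'] at e2
      have e3 : Real.log (1 / θ) = - Real.log θ := by rw [one_div, Real.log_inv]
      have e4 : P * (Real.log G.card - Real.log P) ≤
          P * (Real.log (1 / θ) + (θ * G.card / P - 1)) := by
        apply mul_le_mul_of_nonneg_left _ h0.le
        rw [e3]; linarith
      have e5 : P * (Real.log (1 / θ) + (θ * G.card / P - 1)) =
          P * Real.log (1 / θ) + (θ * G.card - P) := by field_simp
      have e6 : P * Real.log (1 / θ) ≤ θ * G.card * Real.log (1 / θ) :=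
        mul_le_mul_of_nonneg_right hb hl.le
      linarith
  have : θ * (Real.log (1 / θ) + 1) * G.card = θ * G.card * Real.log (1 / θ) + θ * G.card := by
    ring
  linarith

/-- conditioning on the rare event -/
lemma mixture (G : Finset α) (G' : Finset β) (hG : G.Nonempty) (hG' : G'.Nonempty)
    (a : α → M) (b : β → M) :
    (1 - (nz G' b : ℝ) / G'.card) * h G a + h G' b - h G' (fun g => decide (b g ≠ 0)) ≤
      h (G ×ˢ G') (fun x => a x.1 + b x.2) := by
  have hN : (0 : ℝ) < G.card := by exact_mod_cast card_pos.2 hG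
  have hN' : (0 : ℝ) < G'.card := by exact_mod_cast card_pos.2 hG'
  set Z : β → Bool := fun g => decide (b g ≠ 0) with hZ
  set G1 := G'.filter (fun g => b g ≠ 0) with hG1
  set G0 := G'.filter (fun g => ¬ b g ≠ 0) with hG0
  have hcl1 : ∀ g ∈ G', b g ≠ 0 → cl G' Z g = G1 := by
    intro g hg hbg
    ext y
    rw [mem_cl, hG1, mem_filter, hZ]
    simp [hbg]
  have hcl0 : ∀ g ∈ G', ¬ b g ≠ 0 → cl G' Z g = G0 := by
    intro g hg hbg
    rw [not_not] at hbg
    ext y
    rw [mem_cl, hG0, mem_filter, hZ]
    simp [hbg]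
  have hcard : (G1.card : ℝ) + G0.card = G'.card := by
    have : G1.card + G0.card = G'.card := card_filter_add_card_filter_not _
    exact_mod_cast this
  -- entropy of `b`
  have hb1 : h G' b = h G' Z + (G1.card : ℝ) * h G1 b / G'.card := by
    have c1 := chain G' Z b
    have c2 : h G' (fun x => (Z x, b x)) = h G' b := by
      refine h_congr fun x _ y _ => ?_
      rw [Prod.mk.injEq]
      constructor
      · exact fun h => h.2
      · intro h
        refine ⟨?_, h⟩
        simp only [hZ]
        rw [h]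
    have c3 : ∑ x ∈ G', h (cl G' Z x) b = G1.card * h G1 b := by
      rw [← sum_filter_add_sum_filter_not G' (fun g => b g ≠ 0)]
      have s1 : ∑ x ∈ G'.filter (fun g => b g ≠ 0), h (cl G' Z x) b = G1.card * h G1 b := by
        rw [sum_congr rfl (g := fun _ => h G1 b), sum_const, nsmul_eq_mul]
        intro x hx
        rw [mem_filter] at hx
        rw [hcl1 x hx.1 hx.2]
      have s0 : ∑ x ∈ G'.filter (fun g => ¬ b g ≠ 0), h (cl G' Z x) b = 0 := by
        refine sum_eq_zero fun x hx => ?_
        rw [mem_filter] at hx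
        rw [hcl0 x hx.1 hx.2]
        refine h_const _ _ fun u hu v hv => ?_
        rw [hG0, mem_filter, not_not] at hu hv
        rw [hu.2, hv.2]
      rw [s1, s0, add_zero]
    rw [c2, c3] at c1
    linarith
  -- entropy of the sum
  have k1 := submod (G ×ˢ G') (fun _ => ()) (fun s => Z s.2) (fun s => a s.1 + b s.2)
    (fun _ _ _ _ _ => rfl)
  have k2 : h (G ×ˢ G') (fun _ : α × β => ()) = 0 := h_const _ _ fun _ _ _ _ => rfl
  have k3 : h (G ×ˢ G') (fun s => ((), a s.1 + b s.2)) = h (G ×ˢ G') (fun s => a s.1 + b s.2) := by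
    refine h_congr fun x _ y _ => ?_
    rw [Prod.mk.injEq]
    exact ⟨fun h => h.2, fun h => ⟨rfl, h⟩⟩
  rw [k2, k3, sub_zero] at k1
  refine le_trans ?_ k1
  rw [chain (G ×ˢ G') (fun s => Z s.2) (fun s => a s.1 + b s.2), card_product, sum_product]
  push_cast
  rw [le_div_iff₀ (by positivity)]
  have hcl : ∀ u ∈ G, ∀ v ∈ G', cl (G ×ˢ G') (fun s => Z s.2) (u, v) = G ×ˢ cl G' Z v := by
    intro u hu v hv
    ext y
    rw [mem_cl, mem_product, mem_product, mem_cl]
    tauto
  have low : ∀ u ∈ G, ∀ v ∈ G', (if b v ≠ 0 then h G1 b else h G a) ≤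
      h (cl (G ×ˢ G') (fun s => Z s.2) (u, v)) (fun s => a s.1 + b s.2) := by
    intro u hu v hv
    rw [hcl u hu v hv]
    split_ifs with hbv
    · rw [hcl1 v hv hbv]
      exact cell_right G G1 hG a b
    · rw [hcl0 v hv hbv]
      refine cell_left G G0 ⟨v, ?_⟩ a b
      rw [hG0, mem_filter]
      exact ⟨hv, hbv⟩
  refine le_trans ?_ (sum_le_sum fun u hu => sum_le_sum fun v hv => low u hu v hv)
  have ev : ∑ v ∈ G', (if b v ≠ 0 then h G1 b else h G a) = G1.card * h G1 b + G0.card * h G a := by
    rw [sum_ite, sum_const, sum_const, nsmul_eq_mul, nsmul_eq_mul]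
  rw [ev, sum_const, nsmul_eq_mul]
  have hnz : (nz G' b : ℝ) = G1.card := rfl
  rw [hnz, hb1]
  have e0 : (G0.card : ℝ) = G'.card - G1.card := by linarith
  rw [e0]
  apply le_of_eq
  field_simp
  ring

/-- **One-sided inequality**: the entropy of a sum of two independent variables, one of which is
zero with probability at least `1 - θ`. -/
lemma one_sided (G : Finset α) (G' : Finset β) (hG : G.Nonempty) (hG' : G'.Nonempty)
    (a : α → M) (b : β → M) {θ : ℝ} (hθ : 0 < θ) (hθ1 : θ ≤ 1 / 9)
    (hb : (nz G' b : ℝ) ≤ θ * G'.card) :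
    (1 - 4 / Real.log (1 / θ)) * (h G a + h G' b) ≤ h (G ×ˢ G') (fun x => a x.1 + b x.2) := by
  have hN : (0 : ℝ) < G.card := by exact_mod_cast card_pos.2 hG
  have hN' : (0 : ℝ) < G'.card := by exact_mod_cast card_pos.2 hG'
  set s := Real.sqrt θ with hs
  have hs0 : 0 < s := Real.sqrt_pos.2 hθ
  have hss : s * s = θ := Real.mul_self_sqrt hθ.le
  have hs3 : s ≤ 1 / 3 := by
    have : s ^ 2 ≤ (1 / 3) ^ 2 := by rw [sq, hss]; linarith
    exact le_of_pow_le_pow_left₀ (by norm_num) (by norm_num) this
  have hl : Real.log (1 / θ) = 2 * Real.log (1 / s) := by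
    rw [← hss, one_div, one_div, Real.log_inv, Real.log_inv, Real.log_mul hs0.ne' hs0.ne']
    ring
  have hls : 0 < Real.log (1 / s) := by
    refine Real.log_pos ?_
    rw [lt_div_iff₀ hs0]
    linarith
  have hκ : 4 / Real.log (1 / θ) = 2 / Real.log (1 / s) := by
    rw [hl]
    field_simp
    norm_num
  by_cases hmode : ∃ e : M, (nz G (fun g => a g - e) : ℝ) ≤ s * G.card
  · obtain ⟨e, he⟩ := hmode
    have h1 := cell_main G G' hG hG' (fun g => a g - e) b hs0 hs3 he (by
      refine hb.trans (mul_le_mul_of_nonneg_right ?_ hN'.le)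
      nlinarith)
    have h2 : h G (fun g => a g - e) = h G a := by
      refine h_congr fun x _ y _ => ?_
      exact sub_left_inj
    have h3 : h (G ×ˢ G') (fun x => a x.1 - e + b x.2) = h (G ×ˢ G') (fun x => a x.1 + b x.2) := by
      refine h_congr fun x _ y _ => ?_
      constructor
      · intro h
        have := congrArg (· + e) h
        simpa [sub_add_eq_add_sub] using this
      · intro h
        have := congrArg (· - e) h
        simpa [sub_add_eq_add_sub] using this
    rw [h2, h3, ← hκ] at h1
    exact h1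
  · push Not at hmode
    have hfib : ∀ g ∈ G, (fc G a g : ℝ) ≤ (1 - s) * G.card := by
      intro g hg
      have h1 := hmode (a g)
      have h2 : (nz G (fun x => a x - a g) : ℝ) + fc G a g = G.card := by
        have h3 : (G.filter fun x => a x - a g ≠ 0).card + (G.filter fun x => ¬ a x - a g ≠ 0).card
            = G.card := card_filter_add_card_filter_not _
        have h4 : fc G a g = (G.filter fun x => ¬ a x - a g ≠ 0).card := by
          unfold fc
          congr 1
          ext y
          rw [mem_cl, mem_filter, not_not, sub_eq_zero]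
        rw [h4]
        unfold nz
        exact_mod_cast h3
      nlinarith
    have hlow : s ≤ h G a := by
      unfold h
      rw [le_div_iff₀ hN]
      have h1 : ∀ g ∈ G, s ≤ Real.log G.card - Real.log (fc G a g) := by
        intro g hg
        have h2 := fc_posR (f := a) hg
        have h3 := Real.log_le_log h2 (hfib g hg)
        rw [Real.log_mul (by linarith) hN.ne'] at h3
        have h4 : Real.log (1 - s) ≤ 1 - s - 1 := Real.log_le_sub_one_of_pos (by linarith)
        linarith
      calc s * G.card = ∑ g ∈ G, s := by rw [sum_const, nsmul_eq_mul]; ring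
        _ ≤ _ := sum_le_sum h1
    have hmix := mixture G G' hG hG' a b
    have hrare := h_rare G' hG' b hθ hθ1 hb
    have hnum := num_exp hθ hθ1
    rw [← hs] at hnum
    have hq : (nz G' b : ℝ) / G'.card ≤ θ := by
      rw [div_le_iff₀ hN']
      exact hb
    have hHa := h_nonneg G a
    have hHb := h_nonneg G' b
    have hκ0 : 0 ≤ 4 / Real.log (1 / θ) := by rw [hκ]; positivity
    set κ := 4 / Real.log (1 / θ) with hκd
    refine le_trans ?_ hmix
    -- `θ (ℓ + 1) + θ H ≤ κ H`
    have f1 : θ * (Real.log (1 / θ) + 1) + θ * h G a ≤ κ * h G a := by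
      have g1 : θ * (Real.log (1 / θ) + 1) ≤ (κ - θ) * s := by linarith
      have g2 : 0 ≤ κ - θ := by
        have : 0 ≤ θ * (Real.log (1 / θ) + 1) := by
          rw [hl]; positivity
        by_contra hc
        push Not at hc
        nlinarith
      nlinarith [mul_le_mul_of_nonneg_left hlow g2]
    have f2 : (nz G' b : ℝ) / G'.card * h G a ≤ θ * h G a :=
      mul_le_mul_of_nonneg_right hq hHa
    have f3 : 0 ≤ κ * h G' b := mul_nonneg hκ0 hHb
    nlinarith

end Q137.Shifts
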