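import Mathlib
import Pool.Agent.Y359.PE.Multi
import Pool.Agent.Q137.Shifts.OneSided

/-!
# Sums of independent vectors: one of the two summands is mostly zero at every coordinate, up to
few exceptions in a family
-/

set_option autoImplicit false

namespace Q137.Shifts

open Finset Pool.Agent.Y359.PE
open scoped Classical

variable {α β ι κ M M1 M2 δ : Type*} {V : Type*} [AddCommGroup V]

/-- the increment, from bounds in the cells -/
lemma step_gen (A : Finset α) (B : Finset β) (hA : A.Nonempty) (hB : B.Nonempty) (F : α → M1)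
    (F' : β → M2) (Φ : α × β → δ)
    (hΦ : ∀ s t : α × β, F s.1 = F t.1 → F' s.2 = F' t.2 → Φ s = Φ t)
    (x : α → V) (y : β → V) (lb : α → β → ℝ)
    (hlb : ∀ u ∈ A, ∀ v ∈ B, lb u v ≤ h (cl A F u ×ˢ cl B F' v) (fun s => x s.1 + y s.2)) :
    (∑ u ∈ A, ∑ v ∈ B, lb u v) / (A.card * B.card) ≤
      h (A ×ˢ B) (fun s => (Φ s, x s.1 + y s.2)) - h (A ×ˢ B) Φ := by
  have hAc : (0 : ℝ) < A.card := by exact_mod_cast card_pos.2 hA
  have hBc : (0 : ℝ) < B.card := by exact_mod_cast card_pos.2 hB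
  have h1 := submod (A ×ˢ B) Φ (fun s => (F s.1, F' s.2))
    (fun s => x s.1 + y s.2) (by
      intro s _ t _ hst
      rw [Prod.mk.injEq] at hst
      exact hΦ s t hst.1 hst.2)
  refine le_trans ?_ h1
  rw [chain (A ×ˢ B) (fun s => (F s.1, F' s.2)) (fun s => x s.1 + y s.2), card_product,
    sum_product]
  push_cast
  refine div_le_div_of_nonneg_right ?_ (by positivity)
  refine sum_le_sum fun u hu => sum_le_sum fun v hv => ?_
  rw [cl_prod]
  exact hlb u hu v hv

/-- the second variable is mostly zero -/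
lemma step_right (A : Finset α) (B : Finset β) (hA : A.Nonempty) (hB : B.Nonempty) (F : α → M1)
    (F' : β → M2) (Φ : α × β → δ)
    (hΦ : ∀ s t : α × β, F s.1 = F t.1 → F' s.2 = F' t.2 → Φ s = Φ t)
    (x : α → V) (y : β → V) {τ θ : ℝ} (hθ : 0 < θ) (hθ1 : θ ≤ 1 / 9)
    (hy : (nz B y : ℝ) ≤ τ * B.card) :
    (1 - 4 / Real.log (1 / θ)) * ((h A (fun u => (F u, x u)) - h A F) +
      (h B (fun u => (F' u, y u)) - h B F')) -
      τ / θ * (h A (fun u => (F u, x u)) - h A F) ≤
      h (A ×ˢ B) (fun s => (Φ s, x s.1 + y s.2)) - h (A ×ˢ B) Φ := by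
  have hAc : (0 : ℝ) < A.card := by exact_mod_cast card_pos.2 hA
  have hBc : (0 : ℝ) < B.card := by exact_mod_cast card_pos.2 hB
  set κ' := 4 / Real.log (1 / θ) with hκ
  have hκ0 : 0 ≤ κ' := by
    have : 0 ≤ Real.log (1 / θ) := Real.log_nonneg (by rw [le_div_iff₀ hθ]; linarith)
    positivity
  rw [chain A F x, chain B F' y]
  set Ea := ∑ u ∈ A, h (cl A F u) x with hEa
  set Eb := ∑ u ∈ B, h (cl B F' u) y with hEb
  have hEa0 : 0 ≤ Ea := sum_nonneg fun u _ => h_nonneg _ _
  have hEb0 : 0 ≤ Eb := sum_nonneg fun u _ => h_nonneg _ _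
  have key := step_gen A B hA hB F F' Φ hΦ x y
    (fun u v => (1 - κ') * (h (cl A F u) x + h (cl B F' v) y) -
      (if (nz (cl B F' v) y : ℝ) ≤ θ * fc B F' v then 0 else 1) * h (cl A F u) x) (by
    intro u hu v hv
    have e1 := h_nonneg (cl A F u) x
    have e2 := h_nonneg (cl B F' v) y
    split_ifs with hc
    · have := one_sided (cl A F u) (cl B F' v) ⟨u, mem_cl.2 ⟨hu, rfl⟩⟩ ⟨v, mem_cl.2 ⟨hv, rfl⟩⟩
        x y hθ hθ1 hc
      linarith
    · have := cell_right (cl A F u) (cl B F' v) ⟨u, mem_cl.2 ⟨hu, rfl⟩⟩ x y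
      nlinarith [mul_nonneg hκ0 (add_nonneg e1 e2)])
  refine le_trans ?_ key
  have hmB := markov B F' y hθ hy
  set mB : ℝ := ((B.filter fun u => ¬ ((nz (cl B F' u) y : ℝ) ≤ θ * fc B F' u)).card : ℝ) with hmBd
  have sB : ∑ v ∈ B, (if (nz (cl B F' v) y : ℝ) ≤ θ * fc B F' v then (0 : ℝ) else 1) = mB := by
    rw [sum_ite, sum_const_zero, zero_add, sum_const, nsmul_eq_mul, mul_one]
  have hev : ∑ u ∈ A, ∑ v ∈ B, ((1 - κ') * (h (cl A F u) x + h (cl B F' v) y) -
      (if (nz (cl B F' v) y : ℝ) ≤ θ * fc B F' v then 0 else 1) * h (cl A F u) x) =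
      (1 - κ') * (B.card * Ea + A.card * Eb) - mB * Ea := by
    have inner : ∀ u ∈ A, ∑ v ∈ B, ((1 - κ') * (h (cl A F u) x + h (cl B F' v) y) -
      (if (nz (cl B F' v) y : ℝ) ≤ θ * fc B F' v then 0 else 1) * h (cl A F u) x) =
      (1 - κ') * (B.card * h (cl A F u) x + Eb) - mB * h (cl A F u) x := by
      intro u _
      rw [sum_sub_distrib, ← mul_sum, sum_add_distrib, sum_const, nsmul_eq_mul,
        ← sum_mul, sB]
    rw [sum_congr rfl inner, sum_sub_distrib, ← mul_sum, sum_add_distrib,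
      sum_const, nsmul_eq_mul, ← mul_sum, ← mul_sum]
  rw [hev, le_div_iff₀ (by positivity)]
  have e1 : mB * Ea ≤ τ / θ * B.card * Ea := mul_le_mul_of_nonneg_right hmB hEa0
  have e3 : ((1 - κ') * (Ea / A.card + Eb / B.card) - τ / θ * (Ea / A.card)) *
      (A.card * B.card) =
      (1 - κ') * (B.card * Ea + A.card * Eb) - τ / θ * B.card * Ea := by
    field_simp
  rw [e3]
  linarith

/-- the entropy on a product does not depend on the order of the factors -/
lemma h_swap' (A : Finset α) (B : Finset β) {γ : Type*} (z : α × β → γ) :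
    h (A ×ˢ B) z = h (B ×ˢ A) (fun s => z (s.2, s.1)) := by
  have := h_swap A B (fun a b => z (a, b))
  simpa using this

/-- the first variable is mostly zero -/
lemma step_left (A : Finset α) (B : Finset β) (hA : A.Nonempty) (hB : B.Nonempty) (F : α → M1)
    (F' : β → M2) (Φ : α × β → δ)
    (hΦ : ∀ s t : α × β, F s.1 = F t.1 → F' s.2 = F' t.2 → Φ s = Φ t)
    (x : α → V) (y : β → V) {τ θ : ℝ} (hθ : 0 < θ) (hθ1 : θ ≤ 1 / 9)
    (hx : (nz A x : ℝ) ≤ τ * A.card) :
    (1 - 4 / Real.log (1 / θ)) * ((h A (fun u => (F u, x u)) - h A F) +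
      (h B (fun u => (F' u, y u)) - h B F')) -
      τ / θ * (h B (fun u => (F' u, y u)) - h B F') ≤
      h (A ×ˢ B) (fun s => (Φ s, x s.1 + y s.2)) - h (A ×ˢ B) Φ := by
  have key := step_right B A hB hA F' F (fun s => Φ (s.2, s.1))
    (fun s t h1 h2 => hΦ _ _ h2 h1) y x hθ hθ1 hx
  rw [h_swap' A B, h_swap' A B Φ]
  have e1 : (fun s : β × α => (Φ (s.2, s.1), x s.2 + y s.1)) =
      (fun s : β × α => (Φ (s.2, s.1), y s.1 + x s.2)) := by
    funext s
    rw [add_comm]
  simp only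
  rw [e1]
  linarith

/-- no information on the variables -/
lemma step_none (A : Finset α) (B : Finset β) (hA : A.Nonempty) (hB : B.Nonempty) (F : α → M1)
    (F' : β → M2) (Φ : α × β → δ)
    (hΦ : ∀ s t : α × β, F s.1 = F t.1 → F' s.2 = F' t.2 → Φ s = Φ t)
    (x : α → V) (y : β → V) :
    h B (fun u => (F' u, y u)) - h B F' ≤
      h (A ×ˢ B) (fun s => (Φ s, x s.1 + y s.2)) - h (A ×ˢ B) Φ := by
  have hAc : (0 : ℝ) < A.card := by exact_mod_cast card_pos.2 hA
  have hBc : (0 : ℝ) < B.card := by exact_mod_cast card_pos.2 hB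
  have key := step_gen A B hA hB F F' Φ hΦ x y (fun u v => h (cl B F' v) y) (by
    intro u hu v hv
    exact cell_right (cl A F u) (cl B F' v) ⟨u, mem_cl.2 ⟨hu, rfl⟩⟩ x y)
  refine le_trans ?_ key
  rw [chain B F' y, sum_const, nsmul_eq_mul]
  apply le_of_eq
  field_simp

/-- inserting a coordinate -/
lemma h_insert (S : Finset α) (W : α → M) (J : Finset ι) (p : ι) (X : α → ι → V) :
    h S (fun u => (W u, mk (insert p J) X u)) = h S (fun u => ((W u, mk J X u), X u p)) := by
  refine h_congr fun x _ y _ => ?_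
  rw [Prod.mk.injEq, mk_eq_iff, Prod.mk.injEq, Prod.mk.injEq, mk_eq_iff]
  constructor
  · intro h
    exact ⟨⟨h.1, fun q hq => h.2 q (mem_insert_of_mem hq)⟩, h.2 p (mem_insert_self _ _)⟩
  · rintro ⟨⟨h0, h1⟩, h2⟩
    refine ⟨h0, fun q hq => ?_⟩
    rcases mem_insert.1 hq with rfl | h3
    · exact h2
    · exact h1 q h3

lemma h_mk_empty (S : Finset α) (W : α → M) (X : α → ι → V) :
    h S (fun u => (W u, mk ∅ X u)) = h S W := by
  refine h_congr fun x _ y _ => ?_
  rw [Prod.mk.injEq, mk_eq_iff]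
  constructor
  · exact fun h => h.1
  · exact fun h => ⟨h, fun q hq => absurd hq (notMem_empty _)⟩

/-- monotonicity of the conditional entropy -/
lemma h_pair_ge (S : Finset α) (f : α → M1) (g : α → M2) : 0 ≤ h S (fun x => (f x, g x)) - h S f := by
  rw [chain]
  exact div_nonneg (sum_nonneg fun _ _ => h_nonneg _ _) (by positivity)

/-- **The master inequality** for one variable and a family of independent variables. -/
theorem master (A : Finset α) (hA : A.Nonempty) (Wa : α → M1) (X : α → ι → V)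
    (T : Finset κ) (B : κ → Finset β) (hB : ∀ t ∈ T, (B t).Nonempty) (Wb : κ → β → M2)
    (Y : κ → β → ι → V) {τ θ N : ℝ} (hτ : 0 ≤ τ) (hθ : 0 < θ) (hθ1 : θ ≤ 1 / 9) (J : Finset ι)
    (hJ : ∀ p ∈ J, ((T.filter fun t => ¬ ((nz (B t) (fun b => Y t b p) : ℝ) ≤ τ * (B t).card) ∧
      ¬ ((nz A (fun a => X a p) : ℝ) ≤ τ * A.card)).card : ℝ) ≤ N) :
    ∃ R : κ → ℝ, (∀ t ∈ T, 0 ≤ R t) ∧
      (∀ t ∈ T, (1 - 4 / Real.log (1 / θ) - τ / θ) *
        ((h A (fun u => (Wa u, mk J X u)) - h A Wa) +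
          (h (B t) (fun u => (Wb t u, mk J (Y t) u)) - h (B t) (Wb t))) - R t ≤
        h (A ×ˢ B t) (fun s => ((Wa s.1, Wb t s.2), mk J (fun s : α × β => X s.1 + Y t s.2) s)) -
          h (A ×ˢ B t) (fun s => (Wa s.1, Wb t s.2))) ∧
      ∑ t ∈ T, R t ≤ N * (h A (fun u => (Wa u, mk J X u)) - h A Wa) := by
  induction J using Finset.induction_on with
  | empty =>
    refine ⟨fun _ => 0, fun _ _ => le_rfl, fun t ht => ?_, ?_⟩
    · rw [h_mk_empty, h_mk_empty, h_mk_empty]
      simp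
    · rw [h_mk_empty]
      simp
  | insert p J hp ih =>
    obtain ⟨R, hR0, hR1, hR2⟩ := ih (fun q hq => hJ q (mem_insert_of_mem hq))
    set DA := h A (fun u => ((Wa u, mk J X u), X u p)) - h A (fun u => (Wa u, mk J X u)) with hDA
    have hDA0 : 0 ≤ DA := h_pair_ge _ _ _
    have hκ0 : 0 ≤ 4 / Real.log (1 / θ) := by
      have : 0 ≤ Real.log (1 / θ) := Real.log_nonneg (by rw [le_div_iff₀ hθ]; linarith)
      positivity
    have hτθ : 0 ≤ τ / θ := by positivity
    refine ⟨fun t => R t + (if ¬ ((nz (B t) (fun b => Y t b p) : ℝ) ≤ τ * (B t).card) ∧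
      ¬ ((nz A (fun a => X a p) : ℝ) ≤ τ * A.card) then 1 else 0) * DA, ?_, ?_, ?_⟩
    · intro t ht
      have := hR0 t ht
      beta_reduce
      split_ifs <;> nlinarith
    · intro t ht
      have h1 := hR1 t ht
      set DB := h (B t) (fun u => ((Wb t u, mk J (Y t) u), Y t u p)) -
        h (B t) (fun u => (Wb t u, mk J (Y t) u)) with hDB
      have hDB0 : 0 ≤ DB := h_pair_ge _ _ _
      have hΦ : ∀ s s' : α × β, (fun u => (Wa u, mk J X u)) s.1 = (fun u => (Wa u, mk J X u)) s'.1 →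
          (fun u => (Wb t u, mk J (Y t) u)) s.2 = (fun u => (Wb t u, mk J (Y t) u)) s'.2 →
          (fun s => ((Wa s.1, Wb t s.2), mk J (fun s : α × β => X s.1 + Y t s.2) s)) s =
          (fun s => ((Wa s.1, Wb t s.2), mk J (fun s : α × β => X s.1 + Y t s.2) s)) s' := by
        intro s s' e1 e2
        simp only [Prod.mk.injEq] at e1 e2
        simp only [Prod.mk.injEq]
        refine ⟨⟨e1.1, e2.1⟩, ?_⟩
        rw [mk_add, mk_add, e1.2, e2.2]
      have step : (1 - 4 / Real.log (1 / θ) - τ / θ) * (DA + DB) -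
          (if ¬ ((nz (B t) (fun b => Y t b p) : ℝ) ≤ τ * (B t).card) ∧
          ¬ ((nz A (fun a => X a p) : ℝ) ≤ τ * A.card) then 1 else 0) * DA ≤
          h (A ×ˢ B t) (fun s => (((Wa s.1, Wb t s.2),
            mk J (fun s : α × β => X s.1 + Y t s.2) s), X s.1 p + Y t s.2 p)) -
          h (A ×ˢ B t) (fun s => ((Wa s.1, Wb t s.2),
            mk J (fun s : α × β => X s.1 + Y t s.2) s)) := by
        by_cases c1 : (nz (B t) (fun b => Y t b p) : ℝ) ≤ τ * (B t).card
        · rw [if_neg (by tauto)]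
          have := step_right A (B t) hA (hB t ht) (fun u => (Wa u, mk J X u))
            (fun u => (Wb t u, mk J (Y t) u)) _ hΦ (fun a => X a p) (fun b => Y t b p) hθ hθ1 c1
          rw [← hDA, ← hDB] at this
          nlinarith [mul_nonneg hτθ hDB0]
        · by_cases c2 : (nz A (fun a => X a p) : ℝ) ≤ τ * A.card
          · rw [if_neg (by tauto)]
            have := step_left A (B t) hA (hB t ht) (fun u => (Wa u, mk J X u))
              (fun u => (Wb t u, mk J (Y t) u)) _ hΦ (fun a => X a p) (fun b => Y t b p) hθ hθ1 c2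
            rw [← hDA, ← hDB] at this
            nlinarith [mul_nonneg hτθ hDA0]
          · rw [if_pos ⟨c1, c2⟩]
            have := step_none A (B t) hA (hB t ht) (fun u => (Wa u, mk J X u))
              (fun u => (Wb t u, mk J (Y t) u)) _ hΦ (fun a => X a p) (fun b => Y t b p)
            rw [← hDB] at this
            nlinarith [mul_nonneg hτθ (add_nonneg hDA0 hDB0), mul_nonneg hκ0 (add_nonneg hDA0 hDB0)]
      rw [h_insert, h_insert]
      have e3 : h (A ×ˢ B t) (fun s => ((Wa s.1, Wb t s.2),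
          mk (insert p J) (fun s : α × β => X s.1 + Y t s.2) s)) =
          h (A ×ˢ B t) (fun s => (((Wa s.1, Wb t s.2),
            mk J (fun s : α × β => X s.1 + Y t s.2) s), X s.1 p + Y t s.2 p)) :=
        h_insert (A ×ˢ B t) (fun s => (Wa s.1, Wb t s.2)) J p (fun s : α × β => X s.1 + Y t s.2)
      rw [e3]
      have e4 : (1 - 4 / Real.log (1 / θ) - τ / θ) *
          ((h A (fun u => ((Wa u, mk J X u), X u p)) - h A Wa) +
            (h (B t) (fun u => ((Wb t u, mk J (Y t) u), Y t u p)) - h (B t) (Wb t))) =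
          (1 - 4 / Real.log (1 / θ) - τ / θ) *
          ((h A (fun u => (Wa u, mk J X u)) - h A Wa) +
          (h (B t) (fun u => (Wb t u, mk J (Y t) u)) - h (B t) (Wb t))) +
          (1 - 4 / Real.log (1 / θ) - τ / θ) * (DA + DB) := by
        rw [hDA, hDB]; ring
      rw [e4]
      linarith
    · rw [sum_add_distrib, ← sum_mul, h_insert]
      have e1 : ∑ t ∈ T, (if ¬ ((nz (B t) (fun b => Y t b p) : ℝ) ≤ τ * (B t).card) ∧
          ¬ ((nz A (fun a => X a p) : ℝ) ≤ τ * A.card) then (1 : ℝ) else 0) ≤ N := by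
        rw [sum_ite, sum_const_zero, add_zero, sum_const, nsmul_eq_mul, mul_one]
        exact hJ p (mem_insert_self _ _)
      have e2 := mul_le_mul_of_nonneg_right e1 hDA0
      have e3 : N * (h A (fun u => ((Wa u, mk J X u), X u p)) - h A Wa) =
          N * (h A (fun u => (Wa u, mk J X u)) - h A Wa) + N * DA := by
        rw [hDA]; ring
      rw [e3]
      linarith

end Q137.Shifts
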