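import Mathlib
import Pool.Agent.Y359.PE.Prod
import Pool.Agent.Q137.Shifts.Master

/-!
# Product sets of sets of integers: valuations above a modulus `Q`
-/

set_option autoImplicit false

namespace Q137.Shifts

open Finset Pool.Agent.Y359.PE
open scoped Classical Pointwise

/-- the part of the exponent of `p` in `a` above the exponent of `p` in `Q`, minus `e p` -/
noncomputable def U (Q : ℕ) (a : ℤ) (p : ℕ) : ℤ :=
  (fa a p : ℤ) - min (fa a p : ℤ) (Q.factorization p)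

/-- the common part with `Q` -/
def W (Q : ℕ) (a : ℤ) : ℕ := Nat.gcd a.natAbs Q

lemma fact_W {Q : ℕ} (hQ : Q ≠ 0) {a : ℤ} (ha : a ≠ 0) (p : ℕ) :
    ((W Q a).factorization p : ℤ) = min (fa a p : ℤ) (Q.factorization p) := by
  unfold W fa
  rw [Nat.factorization_gcd (Int.natAbs_ne_zero.2 ha) hQ, Finsupp.inf_apply]
  push_cast
  rfl

lemma U_ne_zero {Q : ℕ} {a : ℤ} {p : ℕ} : U Q a p ≠ 0 ↔ Q.factorization p < fa a p := by
  unfold U
  omega

lemma natAbs_eq {Q : ℕ} (hQ : Q ≠ 0) (J : Finset ℕ) {a b : ℤ} (ha : a ≠ 0) (hb : b ≠ 0)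
    (hJa : ∀ p, p ∉ J → fa a p = 0) (hJb : ∀ p, p ∉ J → fa b p = 0) (hW : W Q a = W Q b)
    (hU : ∀ p ∈ J, U Q a p = U Q b p) : a.natAbs = b.natAbs := by
  refine Nat.eq_of_factorization_eq (Int.natAbs_ne_zero.2 ha) (Int.natAbs_ne_zero.2 hb) ?_
  intro p
  show fa a p = fa b p
  by_cases hp : p ∈ J
  · have h1 := hU p hp
    have h2 := fact_W hQ ha p
    have h3 := fact_W hQ hb p
    rw [hW, h3] at h2
    unfold U at h1
    have : (fa a p : ℤ) = fa b p := by linarith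
    exact_mod_cast this
  · rw [hJa p hp, hJb p hp]

/-- the classes of `(W, U)` have at most two elements -/
lemma entropy_low {Q : ℕ} (hQ : Q ≠ 0) (A : Finset ℤ) (hA : A.Nonempty) (h0 : (0 : ℤ) ∉ A)
    (J : Finset ℕ) (hJ : ∀ a ∈ A, ∀ p, p ∉ J → fa a p = 0) :
    Real.log A.card - Real.log 2 ≤ h A (fun u => (W Q u, mk J (U Q) u)) := by
  have h1 := h_ge_short A A hA (fun u => (W Q u, mk J (U Q) u)) (Subset.refl _) (F := 2)
    (fun x hx => by
      have h1 : cl A (fun u => (W Q u, mk J (U Q) u)) x ⊆ {x, -x} := by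
        intro y hy
        rw [mem_cl, Prod.mk.injEq, mk_eq_iff] at hy
        have h2 := natAbs_eq hQ J (fun h => h0 (h ▸ hy.1)) (fun h => h0 (h ▸ hx)) (hJ y hy.1)
          (hJ x hx) hy.2.1 hy.2.2
        rw [mem_insert, mem_singleton]
        omega
      exact_mod_cast (card_le_card h1).trans card_le_two)
  have hc : (0 : ℝ) < A.card := by exact_mod_cast card_pos.2 hA
  rw [div_self hc.ne', one_mul] at h1
  exact h1

lemma h_le_card {α β : Type*} {S : Finset α} (hS : S.Nonempty) (f : α → β) (D : Finset β)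
    (hD : ∀ x ∈ S, f x ∈ D) : h S f ≤ Real.log D.card := by
  refine (h_le_log hS _).trans ?_
  refine Real.log_le_log (by exact_mod_cast card_pos.2 (hS.image _)) ?_
  exact_mod_cast card_le_card (image_subset_iff.2 hD)

/-- the entropy of the common part with `Q` -/
lemma entropy_W {Q : ℕ} (hQ : Q ≠ 0) (A : Finset ℤ) (hA : A.Nonempty) :
    h A (W Q) ≤ Real.log Q.divisors.card := by
  refine h_le_card hA _ _ fun a _ => ?_
  rw [Nat.mem_divisors]
  exact ⟨Nat.gcd_dvd_right _ _, hQ⟩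

section ent

variable {α β γ δ : Type*}

/-- monotonicity -/
lemma h_mono (S : Finset α) (f : α → β) (g : α → γ)
    (hfg : ∀ x ∈ S, ∀ y ∈ S, g x = g y → f x = f y) : h S f ≤ h S g := by
  have h1 := h_pair_ge S f g
  have h2 : h S (fun x => (f x, g x)) = h S g := by
    refine h_congr fun x hx y hy => ?_
    rw [Prod.mk.injEq]
    exact ⟨fun h => h.2, fun h => ⟨hfg x hx y hy h, h⟩⟩
  linarith

lemma h_pair_le (S : Finset α) (f : α → β) (g : α → γ) :
    h S (fun x => (f x, g x)) - h S f ≤ h S g := by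
  have k1 := submod S (fun _ => ()) f g (fun _ _ _ _ _ => rfl)
  have k2 : h S (fun _ : α => ()) = 0 := h_const _ _ fun _ _ _ _ => rfl
  have k3 : h S (fun s => ((), g s)) = h S g := by
    refine h_congr fun x _ y _ => ?_
    rw [Prod.mk.injEq]
    exact ⟨fun h => h.2, fun h => ⟨rfl, h⟩⟩
  rw [k2, k3, sub_zero] at k1
  exact k1

end ent

/-- the entropy of the sums is at most the logarithm of the number of products -/
lemma entropy_up {Q : ℕ} (hQ : Q ≠ 0) (A B : Finset ℤ) (hA : A.Nonempty) (hB : B.Nonempty)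
    (h0 : (0 : ℤ) ∉ A) (h0' : (0 : ℤ) ∉ B) (J : Finset ℕ) :
    h (A ×ˢ B) (fun s => ((W Q s.1, W Q s.2),
      mk J (fun s : ℤ × ℤ => U Q s.1 + U Q s.2) s)) -
      h (A ×ˢ B) (fun s => (W Q s.1, W Q s.2)) ≤ Real.log (A * B).card := by
  have h1 : h (A ×ˢ B) (fun s => ((W Q s.1, W Q s.2),
      mk J (fun s : ℤ × ℤ => U Q s.1 + U Q s.2) s)) ≤
      h (A ×ˢ B) (fun s => ((W Q s.1, W Q s.2), s.1 * s.2)) := by
    refine h_mono _ _ _ ?_
    intro s hs t ht hst
    rw [Prod.mk.injEq, Prod.mk.injEq] at hst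
    rw [Prod.mk.injEq, Prod.mk.injEq, mk_eq_iff]
    refine ⟨hst.1, fun p _ => ?_⟩
    rw [mem_product] at hs ht
    have n1 : s.1 ≠ 0 := fun h => h0 (h ▸ hs.1)
    have n2 : s.2 ≠ 0 := fun h => h0' (h ▸ hs.2)
    have n3 : t.1 ≠ 0 := fun h => h0 (h ▸ ht.1)
    have n4 : t.2 ≠ 0 := fun h => h0' (h ▸ ht.2)
    show U Q s.1 p + U Q s.2 p = U Q t.1 p + U Q t.2 p
    unfold U
    rw [← fact_W hQ n1, ← fact_W hQ n2, ← fact_W hQ n3, ← fact_W hQ n4, hst.1.1, hst.1.2]
    have e1 := fa_mul n1 n2 p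
    have e2 := fa_mul n3 n4 p
    rw [hst.2, e2] at e1
    have e3 : (fa t.1 p : ℤ) + fa t.2 p = fa s.1 p + fa s.2 p := by exact_mod_cast e1
    linarith
  have h2 := h_pair_le (A ×ˢ B) (fun s => (W Q s.1, W Q s.2)) (fun s : ℤ × ℤ => s.1 * s.2)
  have h3 := h_le_card (hA.product hB) (fun s : ℤ × ℤ => s.1 * s.2) (A * B) (by
    intro s hs
    rw [mem_product] at hs
    exact mul_mem_mul hs.1 hs.2)
  linarith

/-- **The main inequality** for a family of sets of nonzero integers. -/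
theorem family {κ : Type*} (Q : ℕ) (hQ : Q ≠ 0) (A : Finset ℤ) (hA : A.Nonempty)
    (h0 : (0 : ℤ) ∉ A) (T : Finset κ) (B : κ → Finset ℤ) (hB : ∀ t ∈ T, (B t).Nonempty)
    (hB0 : ∀ t ∈ T, (0 : ℤ) ∉ B t) {τ θ N : ℝ} (hτ : 0 ≤ τ) (hθ : 0 < θ) (hθ1 : θ ≤ 1 / 9)
    (hκ : 4 / Real.log (1 / θ) + τ / θ ≤ 1) (hN : 0 ≤ N)
    (hJ : ∀ p : ℕ, p.Prime → ((T.filter fun t =>
      ¬ ((((B t).filter fun b => Q.factorization p < fa b p).card : ℝ) ≤ τ * (B t).card) ∧
      ¬ (((A.filter fun a => Q.factorization p < fa a p).card : ℝ) ≤ τ * A.card)).card : ℝ) ≤ N) :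
    ∃ R : κ → ℝ, (∀ t ∈ T, 0 ≤ R t) ∧
      (∀ t ∈ T, (1 - 4 / Real.log (1 / θ) - τ / θ) *
        (Real.log A.card + Real.log (B t).card - 2 * Real.log (2 * Q.divisors.card)) - R t ≤
        Real.log (A * B t).card) ∧
      ∑ t ∈ T, R t ≤ N * Real.log A.card := by
  set J : Finset ℕ := pr A ∪ T.biUnion fun t => pr (B t) with hJd
  have hJp : ∀ p ∈ J, p.Prime := by
    intro p hp
    rw [hJd, mem_union, mem_biUnion] at hp
    rcases hp with hp | ⟨t, _, hp⟩
    · exact prime_of_mem_pr hp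
    · exact prime_of_mem_pr hp
  have nzU : ∀ (S : Finset ℤ) (p : ℕ), nz S (fun a => U Q a p) =
      (S.filter fun a => Q.factorization p < fa a p).card := by
    intro S p
    refine nz_eq _ _ _ fun a => ?_
    rw [mem_filter, U_ne_zero]
  obtain ⟨R, hR0, hR1, hR2⟩ := master A hA (W Q) (U Q) T B hB (fun _ => W Q) (fun _ => U Q)
    hτ hθ hθ1 J (N := N) (fun p hp => by
      have := hJ p (hJp p hp)
      simp only [nzU]
      exact this)
  have hD : (1 : ℝ) ≤ Q.divisors.card := by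
    have : 0 < Q.divisors.card := card_pos.2 ⟨1, Nat.one_mem_divisors.2 hQ⟩
    exact_mod_cast this
  have hlog2D : Real.log (2 * Q.divisors.card) = Real.log 2 + Real.log Q.divisors.card :=
    Real.log_mul (by norm_num) (by linarith)
  have hAJ : ∀ a ∈ A, ∀ p, p ∉ J → fa a p = 0 := by
    intro a ha p hp
    refine fa_eq_zero ha fun h => hp ?_
    rw [hJd, mem_union]
    exact Or.inl h
  have hBJ : ∀ t ∈ T, ∀ a ∈ B t, ∀ p, p ∉ J → fa a p = 0 := by
    intro t ht a ha p hp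
    refine fa_eq_zero ha fun h => hp ?_
    rw [hJd, mem_union, mem_biUnion]
    exact Or.inr ⟨t, ht, h⟩
  refine ⟨R, hR0, fun t ht => ?_, ?_⟩
  · have h1 := hR1 t ht
    have h2 := entropy_up hQ A (B t) hA (hB t ht) h0 (hB0 t ht) J
    have h3 := entropy_low hQ A hA h0 J hAJ
    have h4 := entropy_low hQ (B t) (hB t ht) (hB0 t ht) J (hBJ t ht)
    have h5 := entropy_W hQ A hA
    have h6 := entropy_W hQ (B t) (hB t ht)
    refine le_trans ?_ (h1.trans h2)
    refine sub_le_sub_right (mul_le_mul_of_nonneg_left ?_ (by linarith)) _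
    rw [hlog2D]
    linarith
  · refine hR2.trans (mul_le_mul_of_nonneg_left ?_ hN)
    have h7 := h_pair_le A (W Q) (mk J (U Q))
    refine h7.trans ((h_le_log hA _).trans ?_)
    refine Real.log_le_log (by exact_mod_cast card_pos.2 (hA.image _)) ?_
    exact_mod_cast card_image_le

end Q137.Shifts
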