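import Mathlib
import Pool.Agent.Q137.Shifts.Ints

/-!
# Products of a set and the translates of another set
-/

set_option autoImplicit false

namespace Q137.Shifts

open Finset Pool.Agent.Y359.PE
open scoped Classical Pointwise

/-- the parameters -/
lemma params' {ℓ : ℝ} (hℓ : 9 ≤ ℓ) :
    0 < 1 / Real.exp (ℓ / 2) ∧ 1 / Real.exp (ℓ / 2) ≤ 1 / 9 ∧
      4 / Real.log (1 / (1 / Real.exp (ℓ / 2))) +
        (1 / Real.exp ℓ) / (1 / Real.exp (ℓ / 2)) ≤ 9 / ℓ := by
  have hℓ0 : 0 < ℓ := by linarith
  have h1 : (1 : ℝ) + ℓ / 2 + (ℓ / 2) ^ 2 / 2 ≤ Real.exp (ℓ / 2) :=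
    Real.quadratic_le_exp_of_nonneg (by linarith)
  have h2 : ℓ ≤ Real.exp (ℓ / 2) := by nlinarith
  refine ⟨by positivity, ?_, ?_⟩
  · exact one_div_le_one_div_of_le (by norm_num) (by linarith)
  · rw [one_div_one_div, Real.log_exp]
    have h3 : (1 / Real.exp ℓ) / (1 / Real.exp (ℓ / 2)) = 1 / Real.exp (ℓ / 2) := by
      have : Real.exp ℓ = Real.exp (ℓ / 2) * Real.exp (ℓ / 2) := by
        rw [← Real.exp_add]; congr 1; ring
      rw [this]
      have := Real.exp_pos (ℓ / 2)
      field_simp
    rw [h3]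
    have h4 : 1 / Real.exp (ℓ / 2) ≤ 1 / ℓ := one_div_le_one_div_of_le hℓ0 h2
    have h5 : 4 / (ℓ / 2) + 1 / ℓ = 9 / ℓ := by field_simp; norm_num
    linarith

lemma pow_dvd_of_lt {a : ℤ} {p j : ℕ} (hp : p.Prime) (h : j < fa a p) : (p : ℤ) ^ (j + 1) ∣ a := by
  unfold fa at h
  have h1 : p ^ (j + 1) ∣ a.natAbs := by
    rcases eq_or_ne a 0 with h0 | h0
    · rw [h0]; simp
    · exact (hp.pow_dvd_iff_le_factorization (Int.natAbs_ne_zero.2 h0)).2 h
  have h2 := Int.natCast_dvd.2 h1
  push_cast at h2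
  exact h2

/-- the translate without zero -/
noncomputable def tr (B : Finset ℤ) (t : ℤ) : Finset ℤ := (B.image fun b => b + t).erase 0

lemma card_tr (B : Finset ℤ) (t : ℤ) : B.card ≤ (tr B t).card + 1 := by
  unfold tr
  have h1 : (B.image fun b => b + t).card = B.card :=
    card_image_of_injective _ (add_left_injective t)
  have h2 : (B.image fun b => b + t).card - 1 ≤ ((B.image fun b => b + t).erase 0).card :=
    pred_card_le_card_erase
  omega

/-- every element of `B` is divisible by a high power of `p` for at most one shift -/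
lemma sum_high {Q : ℕ} (hQ : Q ≠ 0) (T : Finset ℤ)
    (hT : ∀ s ∈ T, ∀ t ∈ T, s ≠ t → t - s ∣ (Q : ℤ)) (B : Finset ℤ) {p : ℕ} (hp : p.Prime)
    (S : Finset ℤ) (hS : S ⊆ T) :
    ∑ t ∈ S, ((tr B t).filter fun y => Q.factorization p < fa y p).card ≤ B.card := by
  have h1 : ∀ t ∈ S, ((tr B t).filter fun y => Q.factorization p < fa y p).card ≤
      ∑ b ∈ B, if Q.factorization p < fa (b + t) p then 1 else 0 := by
    intro t _
    rw [← card_filter]
    refine card_le_card_of_injOn (fun y => y - t) ?_ ?_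
    · intro y hy
      have hy' := mem_coe.1 hy
      unfold tr at hy'
      rw [mem_filter, mem_erase, mem_image] at hy'
      obtain ⟨⟨_, b, hb, rfl⟩, h2⟩ := hy'
      rw [mem_coe, mem_filter]
      simp only [add_sub_cancel_right]
      exact ⟨hb, h2⟩
    · intro y _ z _ h
      simpa using h
  refine (sum_le_sum h1).trans ?_
  rw [sum_comm]
  have h2 : ∀ b ∈ B, ∑ t ∈ S, (if Q.factorization p < fa (b + t) p then 1 else 0) ≤ 1 := by
    intro b _
    rw [← card_filter, card_le_one]
    intro s hs t ht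
    rw [mem_filter] at hs ht
    by_contra hne
    have d1 := pow_dvd_of_lt hp hs.2
    have d2 := pow_dvd_of_lt hp ht.2
    have d3 : (p : ℤ) ^ (Q.factorization p + 1) ∣ t - s := by
      have := dvd_sub d2 d1
      have e : b + t - (b + s) = t - s := by ring
      rwa [e] at this
    have d4 := d3.trans (hT s (hS hs.1) t (hS ht.1) hne)
    have d5 : p ^ (Q.factorization p + 1) ∣ Q := by exact_mod_cast d4
    have := (hp.pow_dvd_iff_le_factorization hQ).1 d5
    omega
  calc ∑ b ∈ B, ∑ t ∈ S, (if Q.factorization p < fa (b + t) p then 1 else 0)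
      ≤ ∑ b ∈ B, 1 := sum_le_sum h2
    _ = B.card := by simp

lemma num_final {ε : ℝ} (hε : 0 < ε) (hε1 : ε ≤ 1) :
    4 * Real.exp (18 / ε) / ε + 1 ≤ Real.exp (22 / ε) := by
  have h1 : 4 / ε ≤ Real.exp (4 / ε - 1) := by
    have := Real.add_one_le_exp (4 / ε - 1)
    linarith
  have h2 : Real.exp (22 / ε) = Real.exp (18 / ε) * Real.exp (4 / ε - 1) * Real.exp 1 := by
    rw [← Real.exp_add, ← Real.exp_add]
    congr 1
    field_simp
    ring
  have h3 : (2 : ℝ) ≤ Real.exp 1 := by
    have := Real.add_one_le_exp (1 : ℝ)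
    linarith
  have h4 : 1 ≤ Real.exp (18 / ε) := Real.one_le_exp (by positivity)
  have h5 : (4 : ℝ) ≤ 4 / ε := by
    rw [le_div_iff₀ hε]; linarith
  have h6 : 1 ≤ Real.exp (18 / ε) * Real.exp (4 / ε - 1) := by nlinarith [Real.exp_pos (4 / ε - 1)]
  have h7 : 4 * Real.exp (18 / ε) / ε ≤ Real.exp (18 / ε) * Real.exp (4 / ε - 1) := by
    have e : 4 * Real.exp (18 / ε) / ε = Real.exp (18 / ε) * (4 / ε) := by ring
    rw [e]
    exact mul_le_mul_of_nonneg_left h1 (Real.exp_pos _).le
  rw [h2]
  nlinarith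

/-- **Shifts.** -/
theorem shifts (ε : ℝ) (hε : 0 < ε) (hε1 : ε ≤ 1) (Q : ℕ) (hQ : Q ≠ 0) (T : Finset ℤ)
    (hT : ∀ s ∈ T, ∀ t ∈ T, s ≠ t → t - s ∣ (Q : ℤ)) (A B : Finset ℤ) (hA : ∃ a ∈ A, a ≠ 0)
    (hB : B.Nonempty) :
    ((T.filter fun t => 16 * (Q.divisors.card : ℝ) ^ 2 * ((A * B.image fun b => b + t).card : ℝ) <
      ((A.card : ℝ) * B.card) ^ (1 - ε)).card : ℝ) ≤ Real.exp (22 / ε) := by
  obtain ⟨a0, ha0, ha00⟩ := hA
  set A' := A.erase 0 with hA'd
  have hA' : A'.Nonempty := ⟨a0, mem_erase.2 ⟨ha00, ha0⟩⟩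
  have h0 : (0 : ℤ) ∉ A' := notMem_erase _ _
  have hAc : (A.card : ℝ) ≤ 2 * A'.card := by
    have h1 : A.card - 1 ≤ A'.card := pred_card_le_card_erase
    have h2 := card_pos.2 hA'
    have h3 : A.card ≤ 2 * A'.card := by omega
    exact_mod_cast h3
  have hBc1 : 1 ≤ B.card := card_pos.2 hB
  have hBpos : (0 : ℝ) < B.card := by exact_mod_cast hBc1
  set T' := T.filter fun t => B.card ≤ 2 * (tr B t).card with hT'
  have hT'B : ∀ t ∈ T', (tr B t).Nonempty := by
    intro t ht
    rw [hT', mem_filter] at ht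
    rw [← card_pos]
    omega
  -- the parameters
  set ℓ := 18 / ε with hℓ
  have hℓ9 : 9 ≤ ℓ := by
    rw [hℓ, le_div_iff₀ hε]; nlinarith
  obtain ⟨p1, p2, p3⟩ := params' hℓ9
  set θ := 1 / Real.exp (ℓ / 2) with hθ
  set τ := 1 / Real.exp ℓ with hτ
  have hτ0 : 0 < τ := by positivity
  have hκ : 9 / ℓ = ε / 2 := by rw [hℓ]; field_simp; norm_num
  rw [hκ] at p3
  set N := 2 * Real.exp ℓ with hN
  have hN0 : 0 ≤ N := by positivity
  obtain ⟨R, hR0, hR1, hR2⟩ := family Q hQ A' hA' h0 T' (tr B) hT'B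
    (fun t _ => notMem_erase _ _) hτ0.le p1 p2 (by linarith) hN0 (by
      intro p hp
      set S := T'.filter fun t =>
        ¬ ((((tr B t).filter fun b => Q.factorization p < fa b p).card : ℝ) ≤ τ * (tr B t).card) ∧
        ¬ (((A'.filter fun a => Q.factorization p < fa a p).card : ℝ) ≤ τ * A'.card) with hS
      have h1 := sum_high hQ T hT B hp S (((filter_subset _ _).trans (filter_subset _ _)))
      have h2 : (S.card : ℝ) * (τ * B.card / 2) ≤ B.card := by
        calc (S.card : ℝ) * (τ * B.card / 2) = ∑ t ∈ S, τ * B.card / 2 := by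
              rw [sum_const, nsmul_eq_mul]
          _ ≤ ∑ t ∈ S, (((tr B t).filter fun b => Q.factorization p < fa b p).card : ℝ) := by
              refine sum_le_sum fun t ht => ?_
              rw [hS, mem_filter] at ht
              have h3 := ht.2.1
              push Not at h3
              have h4 := ht.1
              rw [hT', mem_filter] at h4
              have h5 : (B.card : ℝ) ≤ 2 * (tr B t).card := by exact_mod_cast h4.2
              have h6 : τ * B.card ≤ τ * (2 * (tr B t).card) :=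
                mul_le_mul_of_nonneg_left h5 hτ0.le
              linarith
          _ ≤ B.card := by exact_mod_cast h1
      have h3 : (S.card : ℝ) * (τ / 2) ≤ 1 := by
        have : (S.card : ℝ) * (τ / 2) * B.card ≤ 1 * B.card := by linarith
        exact le_of_mul_le_mul_right this hBpos
      rw [hN]
      have h4 : τ * Real.exp ℓ = 1 := by
        rw [hτ]
        have := Real.exp_pos ℓ
        field_simp
      have h5 : (S.card : ℝ) * (τ / 2) * (2 * Real.exp ℓ) ≤ 1 * (2 * Real.exp ℓ) :=
        mul_le_mul_of_nonneg_right h3 (by positivity)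
      have h6 : (S.card : ℝ) * (τ / 2) * (2 * Real.exp ℓ) = S.card := by
        have : (S.card : ℝ) * (τ / 2) * (2 * Real.exp ℓ) = S.card * (τ * Real.exp ℓ) := by ring
        rw [this, h4, mul_one]
      linarith)
  set lA := Real.log A'.card with hlA
  have hA'1 : (1 : ℝ) ≤ A'.card := by exact_mod_cast card_pos.2 hA'
  have hlA0 : 0 ≤ lA := Real.log_nonneg hA'1
  have hD : (1 : ℝ) ≤ Q.divisors.card := by
    have : 0 < Q.divisors.card := card_pos.2 ⟨1, Nat.one_mem_divisors.2 hQ⟩
    exact_mod_cast this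
  -- the good shifts
  have good : ∀ t ∈ T', R t ≤ ε / 2 * lA → ((A.card : ℝ) * B.card) ^ (1 - ε) ≤
      16 * (Q.divisors.card : ℝ) ^ 2 * ((A * B.image fun b => b + t).card : ℝ) := by
    intro t ht hRt
    have h1 := hR1 t ht
    have ht' := ht
    rw [hT', mem_filter] at ht'
    have hBt : (B.card : ℝ) ≤ 2 * (tr B t).card := by exact_mod_cast ht'.2
    have hBt1 : (1 : ℝ) ≤ (tr B t).card := by exact_mod_cast card_pos.2 (hT'B t ht)
    set lB := Real.log (tr B t).card with hlB
    have hlB0 : 0 ≤ lB := Real.log_nonneg hBt1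
    have hy : 0 ≤ 2 * Real.log (2 * (Q.divisors.card : ℝ)) := by
      have := Real.log_nonneg (show (1 : ℝ) ≤ 2 * Q.divisors.card by linarith)
      linarith
    set y := 2 * Real.log (2 * (Q.divisors.card : ℝ)) with hyd
    set κ := 4 / Real.log (1 / θ) + τ / θ with hκd
    have hκ0 : 0 ≤ κ := by
      have : 0 ≤ Real.log (1 / θ) := Real.log_nonneg (by rw [le_div_iff₀ p1]; linarith)
      positivity
    have h2 : (1 - 4 / Real.log (1 / θ) - τ / θ) = 1 - κ := by rw [hκd]; ring
    rw [h2] at h1
    have h3 : (1 - ε) * (lA + lB) - y ≤ Real.log (A' * tr B t).card := by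
      have e1 : (1 - κ) * (lA + lB - y) - R t ≤ Real.log (A' * tr B t).card := h1
      have e2 : κ * (lA + lB) ≤ ε / 2 * (lA + lB) :=
        mul_le_mul_of_nonneg_right p3 (by linarith)
      have e3 : 0 ≤ κ * y := mul_nonneg hκ0 hy
      have e4 : 0 ≤ ε / 2 * lB := by positivity
      have e5 : (1 - κ) * (lA + lB - y) = (lA + lB) - κ * (lA + lB) - y + κ * y := by ring
      have e6 : (1 - ε) * (lA + lB) = (lA + lB) - ε / 2 * (lA + lB) - ε / 2 * lA - ε / 2 * lB := by
        ring
      rw [e5] at e1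
      rw [e6]
      linarith
    have hsub : A' * tr B t ⊆ A * B.image fun b => b + t :=
      mul_subset_mul (erase_subset _ _) (erase_subset _ _)
    have hpos : (0 : ℝ) < (A' * tr B t).card := by
      exact_mod_cast card_pos.2 (hA'.mul (hT'B t ht))
    have hle : ((A' * tr B t).card : ℝ) ≤ (A * B.image fun b => b + t).card := by
      exact_mod_cast card_le_card hsub
    have h4 := Real.log_le_log hpos hle
    have hApos : (0 : ℝ) < A.card := by
      exact_mod_cast card_pos.2 ⟨a0, ha0⟩
    have h5 : Real.log A.card ≤ Real.log 2 + lA := by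
      rw [hlA, ← Real.log_mul (by norm_num) (by linarith)]
      exact Real.log_le_log hApos hAc
    have h6 : Real.log B.card ≤ Real.log 2 + lB := by
      rw [hlB, ← Real.log_mul (by norm_num) (by linarith)]
      exact Real.log_le_log hBpos hBt
    have hpos2 : (0 : ℝ) < (A * B.image fun b => b + t).card := lt_of_lt_of_le hpos hle
    rw [← Real.log_le_log_iff (Real.rpow_pos_of_pos (by positivity) _) (by positivity),
      Real.log_rpow (by positivity), Real.log_mul hApos.ne' hBpos.ne',
      Real.log_mul (by positivity) hpos2.ne', Real.log_mul (by norm_num) (by positivity),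
      Real.log_pow]
    have h16 : Real.log 16 = 4 * Real.log 2 := by
      rw [show (16 : ℝ) = 2 ^ 4 by norm_num, Real.log_pow]
      norm_num
    have hy2 : y = 2 * Real.log 2 + 2 * Real.log Q.divisors.card := by
      rw [hyd, Real.log_mul (by norm_num) (by linarith)]
      ring
    have hl2 : 0 ≤ Real.log 2 := Real.log_nonneg (by norm_num)
    have h7 : (1 - ε) * (Real.log A.card + Real.log B.card) ≤
        (1 - ε) * (2 * Real.log 2 + (lA + lB)) :=
      mul_le_mul_of_nonneg_left (by linarith) (by linarith)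
    rw [h16]
    push_cast
    have h8 : (1 - ε) * (2 * Real.log 2) ≤ 2 * Real.log 2 :=
      mul_le_of_le_one_left (by linarith) (by linarith)
    have h9 : (1 - ε) * (2 * Real.log 2 + (lA + lB)) =
        (1 - ε) * (2 * Real.log 2) + (1 - ε) * (lA + lB) := by ring
    rw [h9] at h7
    linarith
  -- the exceptional shifts
  have hsplit : (T.filter fun t => 16 * (Q.divisors.card : ℝ) ^ 2 *
      ((A * B.image fun b => b + t).card : ℝ) < ((A.card : ℝ) * B.card) ^ (1 - ε)) ⊆
      (T.filter fun t => ¬ B.card ≤ 2 * (tr B t).card) ∪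
        T'.filter fun t => ε / 2 * lA < R t := by
    intro t ht
    rw [mem_filter] at ht
    rw [mem_union, mem_filter, mem_filter]
    by_cases h1 : B.card ≤ 2 * (tr B t).card
    · right
      have h2 : t ∈ T' := mem_filter.2 ⟨ht.1, h1⟩
      refine ⟨h2, ?_⟩
      by_contra h3
      push Not at h3
      have := good t h2 h3
      linarith [ht.2]
    · left
      exact ⟨ht.1, h1⟩
  have hone : (T.filter fun t => ¬ B.card ≤ 2 * (tr B t).card).card ≤ 1 := by
    rw [card_le_one]
    intro s hs t ht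
    rw [mem_filter] at hs ht
    have hs1 := card_tr B s
    have ht1 := card_tr B t
    have hB1 : B.card = 1 := by omega
    obtain ⟨b, hb⟩ := card_eq_one.1 hB1
    have key : ∀ u, ¬ B.card ≤ 2 * (tr B u).card → b + u = 0 := by
      intro u hu
      by_contra hne
      have : (tr B u).card = 1 := by
        unfold tr
        rw [hb, image_singleton, erase_eq_of_notMem, card_singleton]
        rw [mem_singleton]
        exact fun h => hne h.symm
      omega
    have h1 := key s hs.2
    have h2 := key t ht.2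
    linarith
  have htwo : ((T'.filter fun t => ε / 2 * lA < R t).card : ℝ) ≤ 4 * Real.exp (18 / ε) / ε := by
    set S := T'.filter fun t => ε / 2 * lA < R t with hS
    have h1 : (S.card : ℝ) * (ε / 2 * lA) ≤ N * lA := by
      calc (S.card : ℝ) * (ε / 2 * lA) = ∑ t ∈ S, ε / 2 * lA := by
            rw [sum_const, nsmul_eq_mul]
        _ ≤ ∑ t ∈ S, R t := sum_le_sum fun t ht => (mem_filter.1 ht).2.le
        _ ≤ ∑ t ∈ T', R t := sum_le_sum_of_subset_of_nonneg (filter_subset _ _)
            fun t ht _ => hR0 t ht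
        _ ≤ N * lA := hR2
    rcases hlA0.eq_or_lt with hz | hz
    · have h2 : ∑ t ∈ T', R t ≤ 0 := by
        have := hR2
        rw [← hz, mul_zero] at this
        exact this
      have h3 : S = ∅ := by
        rw [hS, filter_eq_empty_iff]
        intro t ht
        have h4 : R t ≤ ∑ t ∈ T', R t := single_le_sum hR0 ht
        rw [← hz, mul_zero]
        linarith
      rw [h3]
      simp only [card_empty, Nat.cast_zero]
      positivity
    · have h2 : (S.card : ℝ) * (ε / 2) ≤ N := by
        have : (S.card : ℝ) * (ε / 2) * lA ≤ N * lA := by linarith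
        exact le_of_mul_le_mul_right this hz
      rw [le_div_iff₀ hε]
      rw [hN] at h2
      linarith
  have hfin := num_final hε hε1
  have hcard := card_le_card hsplit
  have hcard2 := hcard.trans (card_union_le _ _)
  have hcard3 : ((T.filter fun t => 16 * (Q.divisors.card : ℝ) ^ 2 *
      ((A * B.image fun b => b + t).card : ℝ) < ((A.card : ℝ) * B.card) ^ (1 - ε)).card : ℝ) ≤
      ((T.filter fun t => ¬ B.card ≤ 2 * (tr B t).card).card : ℝ) +
        ((T'.filter fun t => ε / 2 * lA < R t).card : ℝ) := by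
    exact_mod_cast hcard2
  have hone' : ((T.filter fun t => ¬ B.card ≤ 2 * (tr B t).card).card : ℝ) ≤ 1 := by
    exact_mod_cast hone
  linarith

end Q137.Shifts
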