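import Mathlib
import Pool.Agent.Q137.Shifts.Shift

/-!
# Sets without common popular primes, sets that are dense in blocks, sets with patterns
-/

set_option autoImplicit false

namespace Q137.Shifts

open Finset Pool.Agent.Y359.PE
open scoped Classical Pointwise

/-- **No common popular prime.** -/
theorem no_common (L : ℝ) (hL : 1 < L) (A B : Finset ℤ) (hA : A.Nonempty) (hB : B.Nonempty)
    (h0 : (0 : ℤ) ∉ A) (h0' : (0 : ℤ) ∉ B)
    (hpop : ∀ p : ℕ, p.Prime →
      (∃ e : ℕ, L * ((A.filter fun a => fa a p ≠ e).card : ℝ) ≤ A.card) ∨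
      (∃ e : ℕ, L * ((B.filter fun b => fa b p ≠ e).card : ℝ) ≤ B.card)) :
    ((A.card : ℝ) * B.card) ^ (1 - 9 / Real.log L) ≤ 4 * (A * B).card := by
  have hl0 : 0 < Real.log L := Real.log_pos hL
  have hN1 : (1 : ℝ) ≤ A.card := by exact_mod_cast card_pos.2 hA
  have hN1' : (1 : ℝ) ≤ B.card := by exact_mod_cast card_pos.2 hB
  have hN : (1 : ℝ) ≤ (A.card : ℝ) * B.card := by nlinarith
  have hP1 : (1 : ℝ) ≤ (A * B).card := by exact_mod_cast card_pos.2 (hA.mul hB)
  rcases le_or_gt (1 : ℝ) (9 / Real.log L) with hc | hc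
  · have h1 : ((A.card : ℝ) * B.card) ^ (1 - 9 / Real.log L) ≤ 1 :=
      Real.rpow_le_one_of_one_le_of_nonpos hN (by linarith)
    linarith
  · have hc' := hc
    rw [div_lt_iff₀ hl0, one_mul] at hc
    have hL0 : 0 < L := by linarith
    obtain ⟨p1, p2, p3⟩ := params' hc.le
    rw [Real.exp_log hL0] at p3
    set θ := 1 / Real.exp (Real.log L / 2) with hθ
    have hex : ∀ p : ℕ, ∃ e e' : ℕ, p.Prime →
        L * ((A.filter fun a => fa a p ≠ e).card : ℝ) ≤ A.card ∨
        L * ((B.filter fun b => fa b p ≠ e').card : ℝ) ≤ B.card := by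
      intro p
      by_cases hp : p.Prime
      · rcases hpop p hp with ⟨e, he⟩ | ⟨e, he⟩
        · exact ⟨e, 0, fun _ => Or.inl he⟩
        · exact ⟨0, e, fun _ => Or.inr he⟩
      · exact ⟨0, 0, fun h => absurd h hp⟩
    choose e e' he using hex
    set J : Finset ℕ := pr (A ∪ B) with hJ
    obtain ⟨R, hR0, hR1, hR2⟩ := master A hA (fun _ => ()) (X e) ({()} : Finset Unit) (fun _ => B)
      (fun _ _ => hB) (fun _ _ => ()) (fun _ => X e') (τ := 1 / L) (N := 0) (by positivity) p1 p2 J
      (fun p hp => by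
        have h1 := he p (prime_of_mem_pr hp)
        rw [nz_X, nz_X]
        have h2 : (({()} : Finset Unit).filter fun _ =>
            ¬ (((B.filter fun a => fa a p ≠ e' p).card : ℝ) ≤ 1 / L * B.card) ∧
            ¬ (((A.filter fun a => fa a p ≠ e p).card : ℝ) ≤ 1 / L * A.card)) = ∅ := by
          rw [filter_eq_empty_iff]
          intro u _ h3
          rcases h1 with h1 | h1
          · apply h3.2
            rw [one_div, ← div_eq_inv_mul, le_div_iff₀ hL0]
            linarith
          · apply h3.1
            rw [one_div, ← div_eq_inv_mul, le_div_iff₀ hL0]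
            linarith
        rw [h2]
        simp)
    have hR : R () = 0 := by
      rw [zero_mul] at hR2
      have h1 := hR0 () (mem_singleton_self _)
      have h2 : ∑ t ∈ ({()} : Finset Unit), R t = R () := sum_singleton _ _
      rw [h2] at hR2
      linarith
    have h1 := hR1 () (mem_singleton_self _)
    rw [hR, sub_zero] at h1
    have z1 : h A (fun _ => ()) = 0 := h_const _ _ fun _ _ _ _ => rfl
    have z2 : h B (fun _ => ()) = 0 := h_const _ _ fun _ _ _ _ => rfl
    have z3 : h (A ×ˢ B) (fun _ => ((), ())) = 0 := h_const _ _ fun _ _ _ _ => rfl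
    rw [z1, z2, z3, sub_zero, sub_zero, sub_zero] at h1
    -- the entropy of the sums
    have h2 : h (A ×ˢ B) (fun s => (((), ()), mk J (fun s : ℤ × ℤ => X e s.1 + X e' s.2) s)) ≤
        Real.log (A * B).card := by
      refine (h_mono (A ×ˢ B) _ (fun s => s.1 * s.2) ?_).trans
        (h_le_card (hA.product hB) _ (A * B) ?_)
      · intro s hs t ht hst
        rw [Prod.mk.injEq, mk_eq_iff]
        refine ⟨rfl, fun p _ => ?_⟩
        rw [mem_product] at hs ht
        have n1 : s.1 ≠ 0 := fun h => h0 (h ▸ hs.1)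
        have n2 : s.2 ≠ 0 := fun h => h0' (h ▸ hs.2)
        have n3 : t.1 ≠ 0 := fun h => h0 (h ▸ ht.1)
        have n4 : t.2 ≠ 0 := fun h => h0' (h ▸ ht.2)
        show X e s.1 p + X e' s.2 p = X e t.1 p + X e' t.2 p
        unfold X
        have e1 := fa_mul n1 n2 p
        have e2 := fa_mul n3 n4 p
        rw [hst, e2] at e1
        have e3 : (fa t.1 p : ℤ) + fa t.2 p = fa s.1 p + fa s.2 p := by exact_mod_cast e1
        linarith
      · intro s hs
        rw [mem_product] at hs
        exact mul_mem_mul hs.1 hs.2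
    have low : ∀ (S : Finset ℤ) (e : ℕ → ℕ), S.Nonempty → (0 : ℤ) ∉ S →
        (∀ a ∈ S, ∀ p, p ∉ J → fa a p = 0) →
        Real.log S.card - Real.log 2 ≤ h S (fun u => ((), mk J (X e) u)) := by
      intro S e hS hS0 hSJ
      have h1 := h_ge_short S S hS (fun u => ((), mk J (X e) u)) (Subset.refl _) (F := 2)
        (fun x hx => by
          have h1 : cl S (fun u => ((), mk J (X e) u)) x ⊆ {x, -x} := by
            intro y hy
            rw [mem_cl, Prod.mk.injEq, mk_X_eq_iff] at hy
            have h2 : y.natAbs = x.natAbs := by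
              refine Nat.eq_of_factorization_eq (Int.natAbs_ne_zero.2 fun h => hS0 (h ▸ hy.1))
                (Int.natAbs_ne_zero.2 fun h => hS0 (h ▸ hx)) ?_
              intro p
              show fa y p = fa x p
              by_cases hp : p ∈ J
              · exact hy.2.2 p hp
              · rw [hSJ y hy.1 p hp, hSJ x hx p hp]
            rw [mem_insert, mem_singleton]
            omega
          exact_mod_cast (card_le_card h1).trans card_le_two)
      have hc : (0 : ℝ) < S.card := by exact_mod_cast card_pos.2 hS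
      rw [div_self hc.ne', one_mul] at h1
      exact h1
    have l1 := low A e hA h0 (fun a ha p hp => fa_eq_zero (mem_union_left B ha) hp)
    have l2 := low B e' hB h0' (fun a ha p hp => fa_eq_zero (mem_union_right A ha) hp)
    set κ := 4 / Real.log (1 / θ) + 1 / L / θ with hκ
    have hκ0 : 0 ≤ κ := by
      have : 0 ≤ Real.log (1 / θ) := Real.log_nonneg (by rw [le_div_iff₀ p1]; linarith)
      positivity
    have e1 : 1 - 4 / Real.log (1 / θ) - 1 / L / θ = 1 - κ := by rw [hκ]; ring
    rw [e1] at h1
    set lA := Real.log (A.card : ℝ) with hlA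
    set lB := Real.log (B.card : ℝ) with hlB
    have hlA0 : 0 ≤ lA := Real.log_nonneg hN1
    have hlB0 : 0 ≤ lB := Real.log_nonneg hN1'
    have hl2 : 0 ≤ Real.log 2 := Real.log_nonneg (by norm_num)
    have h3 : (1 - κ) * (lA + lB - 2 * Real.log 2) ≤ Real.log (A * B).card := by
      refine le_trans (mul_le_mul_of_nonneg_left ?_ (by linarith)) (h1.trans h2)
      linarith
    have h4 : (1 - 9 / Real.log L) * (lA + lB) ≤ 2 * Real.log 2 + Real.log (A * B).card := by
      have e5 : (1 - κ) * (lA + lB - 2 * Real.log 2) =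
        (lA + lB) - κ * (lA + lB) - 2 * Real.log 2 + κ * (2 * Real.log 2) := by ring
      have e6 : κ * (lA + lB) ≤ 9 / Real.log L * (lA + lB) :=
        mul_le_mul_of_nonneg_right p3 (by linarith)
      have e7 : 0 ≤ κ * (2 * Real.log 2) := by positivity
      have e8 : (1 - 9 / Real.log L) * (lA + lB) = (lA + lB) - 9 / Real.log L * (lA + lB) := by ring
      rw [e5] at h3
      rw [e8]
      linarith
    have hApos : (0 : ℝ) < A.card := by linarith
    have hBpos : (0 : ℝ) < B.card := by linarith
    have hABpos : (0 : ℝ) < (A * B).card := by linarith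
    rw [← Real.log_le_log_iff (Real.rpow_pos_of_pos (by positivity) _) (by positivity),
      Real.log_rpow (by positivity), Real.log_mul hApos.ne' hBpos.ne',
      Real.log_mul (by norm_num) hABpos.ne']
    have h44 : Real.log 4 = 2 * Real.log 2 := by
      rw [show (4 : ℝ) = 2 ^ 2 by norm_num, Real.log_pow]
      norm_num
    rw [h44]
    exact h4

/-- multiples of `q` in a set that meets few blocks -/
lemma mult_blocks (A : Finset ℤ) (M q : ℕ) (hM : 0 < M) (hq : 0 < q) :
    ((A.filter fun a => (q : ℤ) ∣ a).card : ℝ) ≤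
      (A.image fun a => a / (M : ℤ)).card * ((M : ℝ) / q + 1) := by
  have hq' : (0 : ℤ) < q := by exact_mod_cast hq
  have hM' : (0 : ℤ) < M := by exact_mod_cast hM
  have h1 : (A.filter fun a => (q : ℤ) ∣ a).card ≤
      (A.image fun a => a / (M : ℤ)).card * (M / q + 1) := by
    refine card_le_mul_card_image_of_maps_to (f := fun a => a / (M : ℤ)) ?_ _ ?_ |>.trans
      (le_of_eq (mul_comm _ _))
    · intro a ha
      exact mem_image_of_mem _ (mem_filter.1 ha).1
    · intro k _
      -- multiples of `q` in the block `k`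
      have h2 : ((A.filter fun a => (q : ℤ) ∣ a).filter fun a => a / (M : ℤ) = k).card ≤
          (Finset.range (M / q + 1)).card := by
        refine card_le_card_of_injOn
          (fun a => (a / (q : ℤ) - (k * M + (q - 1)) / (q : ℤ)).toNat) ?_ ?_
        · intro a ha
          rw [mem_coe, mem_filter, mem_filter] at ha
          obtain ⟨⟨_, c, rfl⟩, hk⟩ := ha
          rw [mem_coe, mem_range]
          have hk1 : k * M ≤ (q : ℤ) * c := by
            rw [← hk]; exact Int.ediv_mul_le _ hM'.ne'
          have hk2 : (q : ℤ) * c < k * M + M := by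
            rw [← hk]
            have := Int.lt_ediv_add_one_mul_self ((q : ℤ) * c) hM'
            linarith
          beta_reduce
          rw [Int.mul_ediv_cancel_left c hq'.ne']
          have h3 : c - (k * M + (q - 1)) / (q : ℤ) ≤ (M : ℤ) / q := by
            -- `q c - (q ⌈kM/q⌉) < M`
            have h4 : k * M ≤ ((k * M + (q - 1)) / (q : ℤ)) * q := by
              have := Int.lt_ediv_add_one_mul_self (k * M + ((q : ℤ) - 1)) hq'
              nlinarith
            rw [Int.le_ediv_iff_mul_le hq']
            nlinarith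
          have h5 : ((M / q : ℕ) : ℤ) = (M : ℤ) / q := by push_cast; rfl
          have h6 : (0 : ℤ) ≤ ((M / q : ℕ) : ℤ) := Int.natCast_nonneg _
          rw [← h5] at h3
          generalize M / q = u at h3 h6
          omega
        · intro a ha b hb hab
          rw [mem_coe, mem_filter, mem_filter] at ha hb
          obtain ⟨⟨_, c, rfl⟩, hk⟩ := ha
          obtain ⟨⟨_, d, rfl⟩, hk'⟩ := hb
          simp only at hab
          rw [Int.mul_ediv_cancel_left c hq'.ne', Int.mul_ediv_cancel_left d hq'.ne'] at hab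
          have low : ∀ x : ℤ, (q : ℤ) * x / (M : ℤ) = k → (k * M + (q - 1)) / (q : ℤ) ≤ x := by
            intro x hx
            have hk1 : k * M ≤ (q : ℤ) * x := by
              rw [← hx]; exact Int.ediv_mul_le _ hM'.ne'
            have h6 : (k * M + (q - 1)) / (q : ℤ) < x + 1 := by
              rw [Int.ediv_lt_iff_lt_mul hq']
              nlinarith
            linarith
          have l1 := low c hk
          have l2 := low d hk'
          have : c = d := by omega
          rw [this]
      rwa [card_range] at h2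
  have h2 : ((M / q : ℕ) : ℝ) ≤ (M : ℝ) / q := Nat.cast_div_le
  calc ((A.filter fun a => (q : ℤ) ∣ a).card : ℝ)
      ≤ ((A.image fun a => a / (M : ℤ)).card * (M / q + 1) : ℕ) := by exact_mod_cast h1
    _ = (A.image fun a => a / (M : ℤ)).card * (((M / q : ℕ) : ℝ) + 1) := by push_cast; rfl
    _ ≤ _ := mul_le_mul_of_nonneg_left (by linarith) (by positivity)

/-- **Sets that are dense in blocks expand with every set.** -/
theorem blocks (ε η : ℝ) (hε : 0 < ε) (hε1 : ε ≤ 1) (hη : 0 < η) :
    ∃ (M₀ : ℕ) (c : ℝ), 0 < c ∧ ∀ M : ℕ, M₀ ≤ M → ∀ A B : Finset ℤ, A.Nonempty → B.Nonempty →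
      (0 : ℤ) ∉ A → (0 : ℤ) ∉ B →
      η * M * (A.image fun a => a / (M : ℤ)).card ≤ A.card →
      c * ((A.card : ℝ) * B.card) ^ (1 - ε) ≤ (A * B).card := by
  set ℓ := 9 / ε with hℓ
  have hℓ9 : 9 ≤ ℓ := by
    rw [hℓ, le_div_iff₀ hε]; nlinarith
  obtain ⟨p1, p2, p3⟩ := params' hℓ9
  set θ := 1 / Real.exp (ℓ / 2) with hθ
  set τ := 1 / Real.exp ℓ with hτ
  have hτ0 : 0 < τ := by positivity
  have hκ : 9 / ℓ = ε := by rw [hℓ]; field_simp
  rw [hκ] at p3
  obtain ⟨q0, hq0⟩ := exists_nat_ge (2 / (η * τ) + 1)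
  have hq01 : (1 : ℝ) ≤ q0 := by
    have : 0 ≤ 2 / (η * τ) := by positivity
    linarith
  set Q := q0.factorial with hQd
  have hQ : Q ≠ 0 := Nat.factorial_ne_zero _
  have hD : (1 : ℝ) ≤ Q.divisors.card := by
    have : 0 < Q.divisors.card := card_pos.2 ⟨1, Nat.one_mem_divisors.2 hQ⟩
    exact_mod_cast this
  refine ⟨q0, 1 / (4 * (Q.divisors.card : ℝ) ^ 2), by positivity, ?_⟩
  intro M hM A B hA hB h0 h0' hblock
  have hMq : (q0 : ℝ) ≤ M := by exact_mod_cast hM
  have hMpos : (0 : ℝ) < M := by linarith
  have hM0 : 0 < M := by exact_mod_cast hMpos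
  have hpop : ∀ p : ℕ, p.Prime →
      ((A.filter fun a => Q.factorization p < fa a p).card : ℝ) ≤ τ * A.card := by
    intro p hp
    set q := p ^ (Q.factorization p + 1) with hq
    have hqpos : 0 < q := pow_pos hp.pos _
    have hq0q : q0 < q := by
      by_contra hcon
      push Not at hcon
      have h1 : q ∣ Q := Nat.dvd_factorial hqpos hcon
      have := (hp.pow_dvd_iff_le_factorization hQ).1 h1
      omega
    have hsub : (A.filter fun a => Q.factorization p < fa a p) ⊆
        A.filter fun a => (q : ℤ) ∣ a := by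
      intro a ha
      rw [mem_filter] at ha ⊢
      refine ⟨ha.1, ?_⟩
      have := pow_dvd_of_lt hp ha.2
      rw [hq]
      push_cast
      exact this
    have h1 : ((A.filter fun a => Q.factorization p < fa a p).card : ℝ) ≤
        (A.filter fun a => (q : ℤ) ∣ a).card := by exact_mod_cast card_le_card hsub
    refine h1.trans ((mult_blocks A M q hM0 hqpos).trans ?_)
    set b : ℝ := ((A.image fun a => a / (M : ℤ)).card : ℝ) with hb
    have hb0 : 0 ≤ b := by positivity
    have hqR : (q0 : ℝ) ≤ q := by exact_mod_cast hq0q.le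
    have hqR0 : (0 : ℝ) < q := by linarith
    have hq0R : (0 : ℝ) < q0 := by linarith
    -- `M / q + 1 ≤ 2 M / q0`
    have h2 : (M : ℝ) / q + 1 ≤ 2 * M / q0 := by
      have e1 : (M : ℝ) / q ≤ M / q0 := div_le_div_of_nonneg_left hMpos.le hq0R hqR
      have e2 : 1 ≤ (M : ℝ) / q0 := by rw [le_div_iff₀ hq0R]; linarith
      have e3 : 2 * (M : ℝ) / q0 = M / q0 + M / q0 := by ring
      linarith
    have h3 : 2 / (η * τ) ≤ q0 := by linarith
    rw [div_le_iff₀ (by positivity)] at h3
    calc b * ((M : ℝ) / q + 1) ≤ b * (2 * M / q0) := mul_le_mul_of_nonneg_left h2 hb0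
      _ = (η * M * b) * (2 / (η * q0)) := by field_simp
      _ ≤ A.card * (2 / (η * q0)) := mul_le_mul_of_nonneg_right hblock (by positivity)
      _ ≤ A.card * τ := by
          refine mul_le_mul_of_nonneg_left ?_ (by positivity)
          rw [div_le_iff₀ (by positivity)]
          linarith
      _ = τ * A.card := mul_comm _ _
  obtain ⟨R, hR0, hR1, hR2⟩ := family Q hQ A hA h0 ({()} : Finset Unit) (fun _ => B)
    (fun _ _ => hB) (fun _ _ => h0') hτ0.le p1 p2 (by linarith) (N := 0) le_rfl (by
      intro p hp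
      have h2 : (({()} : Finset Unit).filter fun _ =>
          ¬ (((B.filter fun b => Q.factorization p < fa b p).card : ℝ) ≤ τ * B.card) ∧
          ¬ (((A.filter fun a => Q.factorization p < fa a p).card : ℝ) ≤ τ * A.card)) = ∅ := by
        rw [filter_eq_empty_iff]
        intro u _ h3
        exact h3.2 (hpop p hp)
      rw [h2]
      simp)
  have hR : R () = 0 := by
    rw [zero_mul] at hR2
    have h1 := hR0 () (mem_singleton_self _)
    have h2 : ∑ t ∈ ({()} : Finset Unit), R t = R () := sum_singleton _ _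
    rw [h2] at hR2
    linarith
  have h1 := hR1 () (mem_singleton_self _)
  rw [hR, sub_zero] at h1
  set κ := 4 / Real.log (1 / θ) + τ / θ with hκ'
  have hκ0 : 0 ≤ κ := by
    have : 0 ≤ Real.log (1 / θ) := Real.log_nonneg (by rw [le_div_iff₀ p1]; linarith)
    positivity
  have e1 : 1 - 4 / Real.log (1 / θ) - τ / θ = 1 - κ := by rw [hκ']; ring
  rw [e1] at h1
  have hN1 : (1 : ℝ) ≤ A.card := by exact_mod_cast card_pos.2 hA
  have hN1' : (1 : ℝ) ≤ B.card := by exact_mod_cast card_pos.2 hB
  have hP1 : (1 : ℝ) ≤ (A * B).card := by exact_mod_cast card_pos.2 (hA.mul hB)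
  set lA := Real.log (A.card : ℝ) with hlA
  set lB := Real.log (B.card : ℝ) with hlB
  have hlA0 : 0 ≤ lA := Real.log_nonneg hN1
  have hlB0 : 0 ≤ lB := Real.log_nonneg hN1'
  set y := 2 * Real.log (2 * (Q.divisors.card : ℝ)) with hyd
  have hy : 0 ≤ y := by
    have := Real.log_nonneg (show (1 : ℝ) ≤ 2 * Q.divisors.card by linarith)
    rw [hyd]; linarith
  have h4 : (1 - ε) * (lA + lB) ≤ y + Real.log (A * B).card := by
    have e5 : (1 - κ) * (lA + lB - y) = (lA + lB) - κ * (lA + lB) - y + κ * y := by ring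
    have e6 : κ * (lA + lB) ≤ ε * (lA + lB) :=
      mul_le_mul_of_nonneg_right p3 (by linarith)
    have e7 : 0 ≤ κ * y := by positivity
    have e8 : (1 - ε) * (lA + lB) = (lA + lB) - ε * (lA + lB) := by ring
    rw [e5] at h1
    rw [e8]
    linarith
  have hApos : (0 : ℝ) < A.card := by linarith
  have hBpos : (0 : ℝ) < B.card := by linarith
  have hABpos : (0 : ℝ) < (A * B).card := by linarith
  rw [one_div, ← div_eq_inv_mul, div_le_iff₀ (by positivity),
    ← Real.log_le_log_iff (Real.rpow_pos_of_pos (by positivity) _) (by positivity),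
    Real.log_rpow (by positivity), Real.log_mul hApos.ne' hBpos.ne',
    Real.log_mul hABpos.ne' (by positivity)]
  have e9 : Real.log (4 * (Q.divisors.card : ℝ) ^ 2) = y := by
    rw [hyd]
    have : (4 : ℝ) * (Q.divisors.card : ℝ) ^ 2 = (2 * Q.divisors.card) ^ 2 := by ring
    rw [this, Real.log_pow]
    norm_num
  rw [e9]
  linarith

end Q137.Shifts
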