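import Mathlib
import Pool.Agent.Q137.Shifts.Cor

/-!
# Sum-product consequences: unions of two translates, unions of translates of a pattern
-/

set_option autoImplicit false

namespace Q137.Shifts

open Finset Pool.Agent.Y359.PE
open scoped Classical Pointwise

/-- **Unions of two translates.** -/
theorem union_shift (ε : ℝ) (hε : 0 < ε) (hε1 : ε ≤ 1) (Q : ℕ) (hQ : Q ≠ 0) (T : Finset ℤ)
    (hT : ∀ s ∈ T, ∀ t ∈ T, s ≠ t → t - s ∣ (Q : ℤ)) (B : Finset ℤ) (hB : B.Nonempty) :
    ((T.filter fun t => 64 * (Q.divisors.card : ℝ) ^ 2 *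
      (((B ∪ B.image fun b => b + t) * (B ∪ B.image fun b => b + t)).card : ℝ) <
        ((B ∪ B.image fun b => b + t).card : ℝ) ^ (2 - ε)).card : ℝ) ≤ Real.exp (44 / ε) := by
  have hD : (1 : ℝ) ≤ Q.divisors.card := by
    have : 0 < Q.divisors.card := card_pos.2 ⟨1, Nat.one_mem_divisors.2 hQ⟩
    exact_mod_cast this
  set D : ℝ := (Q.divisors.card : ℝ) with hDd
  have hBpos : (0 : ℝ) < B.card := by exact_mod_cast card_pos.2 hB
  have hC2 : ∀ t : ℤ, ((B ∪ B.image fun b => b + t).card : ℝ) ≤ 2 * B.card := by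
    intro t
    have h1 := card_union_le B (B.image fun b => b + t)
    have h2 : (B.image fun b => b + t).card = B.card :=
      card_image_of_injective _ (add_left_injective t)
    have h3 : (B ∪ B.image fun b => b + t).card ≤ 2 * B.card := by omega
    exact_mod_cast h3
  have hpw : ∀ t : ℤ, ((B ∪ B.image fun b => b + t).card : ℝ) ^ (2 - ε) ≤
      4 * (B.card : ℝ) ^ (2 - ε) := by
    intro t
    calc ((B ∪ B.image fun b => b + t).card : ℝ) ^ (2 - ε) ≤ (2 * (B.card : ℝ)) ^ (2 - ε) :=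
          Real.rpow_le_rpow (by positivity) (hC2 t) (by linarith)
      _ = 2 ^ (2 - ε) * (B.card : ℝ) ^ (2 - ε) := Real.mul_rpow (by norm_num) hBpos.le
      _ ≤ 4 * (B.card : ℝ) ^ (2 - ε) := by
          refine mul_le_mul_of_nonneg_right ?_ (Real.rpow_nonneg hBpos.le _)
          calc (2 : ℝ) ^ (2 - ε) ≤ (2 : ℝ) ^ (2 : ℝ) :=
                Real.rpow_le_rpow_of_exponent_le (by norm_num) (by linarith)
            _ = 4 := by norm_num
  by_cases hB0 : ∃ a ∈ B, a ≠ 0
  · have h1 := shifts (ε / 2) (by positivity) (by linarith) Q hQ T hT B B hB0 hB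
    have h2 : 22 / (ε / 2) = 44 / ε := by field_simp; norm_num
    rw [h2] at h1
    refine le_trans ?_ h1
    have hsub : (T.filter fun t => 64 * D ^ 2 *
      (((B ∪ B.image fun b => b + t) * (B ∪ B.image fun b => b + t)).card : ℝ) <
        ((B ∪ B.image fun b => b + t).card : ℝ) ^ (2 - ε)) ⊆
        T.filter fun t => 16 * D ^ 2 * ((B * B.image fun b => b + t).card : ℝ) <
          ((B.card : ℝ) * B.card) ^ (1 - ε / 2) := by
      intro t ht
      rw [mem_filter] at ht ⊢
      refine ⟨ht.1, ?_⟩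
      have h3 : ((B * B.image fun b => b + t).card : ℝ) ≤
          ((B ∪ B.image fun b => b + t) * (B ∪ B.image fun b => b + t)).card := by
        exact_mod_cast card_le_card (mul_subset_mul subset_union_left subset_union_right)
      have h4 : ((B.card : ℝ) * B.card) ^ (1 - ε / 2) = (B.card : ℝ) ^ (2 - ε) := by
        rw [← sq, ← Real.rpow_natCast, ← Real.rpow_mul hBpos.le]
        congr 1
        push_cast
        ring
      rw [h4]
      have h5 := hpw t
      have h6 := ht.2
      have h7 : 16 * D ^ 2 * ((B * B.image fun b => b + t).card : ℝ) ≤ 16 * D ^ 2 *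
          (((B ∪ B.image fun b => b + t) * (B ∪ B.image fun b => b + t)).card : ℝ) :=
        mul_le_mul_of_nonneg_left h3 (by positivity)
      linarith
    exact Nat.cast_le.2 (card_le_card hsub)
  · push Not at hB0
    have hB1 : B.card ≤ 1 := by
      rw [card_le_one]
      intro a ha b hb
      rw [hB0 a ha, hB0 b hb]
    have hempty : (T.filter fun t => 64 * D ^ 2 *
      (((B ∪ B.image fun b => b + t) * (B ∪ B.image fun b => b + t)).card : ℝ) <
        ((B ∪ B.image fun b => b + t).card : ℝ) ^ (2 - ε)) = ∅ := by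
      rw [filter_eq_empty_iff]
      intro t _ h1
      have h2 := hpw t
      have h3 : (B.card : ℝ) ^ (2 - ε) ≤ 1 :=
        Real.rpow_le_one hBpos.le (by exact_mod_cast hB1) (by linarith)
      have h4 : (1 : ℝ) ≤
          ((B ∪ B.image fun b => b + t) * (B ∪ B.image fun b => b + t)).card := by
        have h5 : ((B ∪ B.image fun b => b + t) * (B ∪ B.image fun b => b + t)).Nonempty :=
          (hB.mono subset_union_left).mul (hB.mono subset_union_left)
        exact_mod_cast card_pos.2 h5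
      have h5 : (1 : ℝ) ≤ D ^ 2 := one_le_pow₀ hD
      nlinarith
    rw [hempty]
    simp only [card_empty, Nat.cast_zero]
    positivity

/-- **Sets with a pattern.** -/
theorem pattern (ε : ℝ) (hε : 0 < ε) (hε1 : ε ≤ 1) (T : Finset ℤ)
    (hT : Real.exp (44 / ε) < T.card) :
    ∃ c : ℝ, 0 < c ∧ ∀ A : Finset ℤ, A.Nonempty →
      (∀ a ∈ A, ∃ x : ℤ, (∃ t ∈ T, a = x + t) ∧ ∀ t ∈ T, x + t ∈ A) →
      c * (A.card : ℝ) ^ (2 - ε) ≤ (A * A).card := by
  set Q : ℕ := ∏ s ∈ T, ∏ t ∈ T.erase s, (t - s).natAbs with hQd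
  have hQ : Q ≠ 0 := by
    rw [hQd, prod_ne_zero_iff]
    intro s _
    rw [prod_ne_zero_iff]
    intro t ht
    rw [mem_erase] at ht
    rw [Int.natAbs_ne_zero, sub_ne_zero]
    exact ht.1
  have hTQ : ∀ s ∈ T, ∀ t ∈ T, s ≠ t → t - s ∣ (Q : ℤ) := by
    intro s hs t ht hst
    rw [← Int.natAbs_dvd_natAbs, Int.natAbs_natCast]
    refine dvd_trans ?_ (dvd_prod_of_mem _ hs)
    exact dvd_prod_of_mem (fun t : ℤ => (t - s).natAbs) (mem_erase.2 ⟨fun h => hst h.symm, ht⟩)
  have hTpos : (0 : ℝ) < T.card := lt_trans (Real.exp_pos _) hT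
  have hT1 : (1 : ℝ) ≤ T.card := by
    have : 0 < T.card := by exact_mod_cast hTpos
    exact_mod_cast this
  obtain ⟨t0, ht0⟩ : T.Nonempty := card_pos.1 (by exact_mod_cast hTpos)
  have hD : (1 : ℝ) ≤ Q.divisors.card := by
    have : 0 < Q.divisors.card := card_pos.2 ⟨1, Nat.one_mem_divisors.2 hQ⟩
    exact_mod_cast this
  set D : ℝ := (Q.divisors.card : ℝ) with hDd
  refine ⟨1 / (16 * D ^ 2 * (T.card : ℝ) ^ 2), by positivity, ?_⟩
  intro A hA hpat
  have hA1 : (1 : ℝ) ≤ A.card := by exact_mod_cast card_pos.2 hA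
  have hAA1 : (1 : ℝ) ≤ (A * A).card := by exact_mod_cast card_pos.2 (hA.mul hA)
  -- the base points
  set B : Finset ℤ := (A.image fun a => a - t0).filter fun x => ∀ t ∈ T, x + t ∈ A with hB
  have hcov : A ⊆ (T ×ˢ B).image fun p => p.2 + p.1 := by
    intro a ha
    obtain ⟨x, ⟨t, ht, hax⟩, hx⟩ := hpat a ha
    rw [mem_image]
    refine ⟨(t, x), ?_, hax.symm⟩
    rw [mem_product]
    refine ⟨ht, ?_⟩
    rw [hB, mem_filter, mem_image]
    exact ⟨⟨x + t0, hx t0 ht0, by ring⟩, hx⟩
  have hcard : (A.card : ℝ) ≤ T.card * B.card := by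
    have h1 := (card_le_card hcov).trans card_image_le
    rw [card_product] at h1
    exact_mod_cast h1
  have hBne : B.Nonempty := by
    rw [← card_pos]
    by_contra h
    have : B.card = 0 := by omega
    rw [this, Nat.cast_zero, mul_zero] at hcard
    linarith
  have hBpos : (0 : ℝ) < B.card := by exact_mod_cast card_pos.2 hBne
  set A1 : Finset ℤ := B.image fun b => b + t0 with hA1d
  have hA1sub : A1 ⊆ A := by
    intro a ha
    rw [hA1d, mem_image] at ha
    obtain ⟨b, hb, rfl⟩ := ha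
    rw [hB, mem_filter] at hb
    exact hb.2 t0 ht0
  have hA1card : A1.card = B.card := card_image_of_injective _ (add_left_injective t0)
  have hpw : (A.card : ℝ) ^ (2 - ε) ≤ (T.card : ℝ) ^ 2 * (B.card : ℝ) ^ (2 - ε) := by
    calc (A.card : ℝ) ^ (2 - ε) ≤ ((T.card : ℝ) * B.card) ^ (2 - ε) :=
          Real.rpow_le_rpow (by positivity) hcard (by linarith)
      _ = (T.card : ℝ) ^ (2 - ε) * (B.card : ℝ) ^ (2 - ε) := Real.mul_rpow hTpos.le hBpos.le
      _ ≤ (T.card : ℝ) ^ 2 * (B.card : ℝ) ^ (2 - ε) := by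
          refine mul_le_mul_of_nonneg_right ?_ (Real.rpow_nonneg hBpos.le _)
          rw [← Real.rpow_natCast]
          refine Real.rpow_le_rpow_of_exponent_le hT1 ?_
          push_cast
          linarith
  rw [one_div, ← div_eq_inv_mul, div_le_iff₀ (by positivity)]
  by_cases hne : ∃ a ∈ A1, a ≠ 0
  · have h1 := shifts (ε / 2) (by positivity) (by linarith) Q hQ T hTQ A1 B hne hBne
    have h2 : 22 / (ε / 2) = 44 / ε := by field_simp; norm_num
    rw [h2] at h1
    -- a good shift
    obtain ⟨t, ht, hgood⟩ : ∃ t ∈ T, ((A1.card : ℝ) * B.card) ^ (1 - ε / 2) ≤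
        16 * D ^ 2 * ((A1 * B.image fun b => b + t).card : ℝ) := by
      by_contra hcon
      push Not at hcon
      have h3 : (T.filter fun t => 16 * D ^ 2 * ((A1 * B.image fun b => b + t).card : ℝ) <
          ((A1.card : ℝ) * B.card) ^ (1 - ε / 2)) = T := filter_true_of_mem hcon
      rw [h3] at h1
      linarith
    have h4 : ((A1.card : ℝ) * B.card) ^ (1 - ε / 2) = (B.card : ℝ) ^ (2 - ε) := by
      rw [hA1card, ← sq, ← Real.rpow_natCast, ← Real.rpow_mul hBpos.le]
      congr 1
      push_cast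
      ring
    rw [h4] at hgood
    have h5 : A1 * (B.image fun b => b + t) ⊆ A * A := by
      refine mul_subset_mul hA1sub ?_
      intro a ha
      rw [mem_image] at ha
      obtain ⟨b, hb, rfl⟩ := ha
      rw [hB, mem_filter] at hb
      exact hb.2 t ht
    have h6 : ((A1 * B.image fun b => b + t).card : ℝ) ≤ (A * A).card := by
      exact_mod_cast card_le_card h5
    calc (A.card : ℝ) ^ (2 - ε) ≤ (T.card : ℝ) ^ 2 * (B.card : ℝ) ^ (2 - ε) := hpw
      _ ≤ (T.card : ℝ) ^ 2 * (16 * D ^ 2 * (A * A).card) := by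
          refine mul_le_mul_of_nonneg_left (hgood.trans ?_) (by positivity)
          exact mul_le_mul_of_nonneg_left h6 (by positivity)
      _ = (A * A).card * (16 * D ^ 2 * (T.card : ℝ) ^ 2) := by ring
  · push Not at hne
    have hB1 : B.card ≤ 1 := by
      rw [← hA1card, card_le_one]
      intro a ha b hb
      rw [hne a ha, hne b hb]
    have h3 : (B.card : ℝ) ^ (2 - ε) ≤ 1 :=
      Real.rpow_le_one hBpos.le (by exact_mod_cast hB1) (by linarith)
    have h5 : (1 : ℝ) ≤ D ^ 2 := one_le_pow₀ hD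
    calc (A.card : ℝ) ^ (2 - ε) ≤ (T.card : ℝ) ^ 2 * (B.card : ℝ) ^ (2 - ε) := hpw
      _ ≤ (T.card : ℝ) ^ 2 * 1 := mul_le_mul_of_nonneg_left h3 (by positivity)
      _ ≤ (A * A).card * (16 * D ^ 2 * (T.card : ℝ) ^ 2) := by
          have h6 : (1 : ℝ) ≤ (A * A).card * (16 * D ^ 2) := by nlinarith
          calc (T.card : ℝ) ^ 2 * 1 ≤ (T.card : ℝ) ^ 2 * ((A * A).card * (16 * D ^ 2)) :=
                mul_le_mul_of_nonneg_left h6 (by positivity)
            _ = _ := by ring

end Q137.Shifts
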